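import Mathlib

set_option autoImplicit false

open Topology

namespace Pool.Agent.TwGrpd

/-- A topological groupoid with space of arrows `G` and unit space `X`: range and source maps
`r, s : G → X`, units `one x`, products `mul a b` (meaningful when `s a = r b`, no condition is
put on the value of `mul a b` otherwise), inverses, and all structure maps are continuous
(multiplication on the set of composable pairs). Since `r ∘ one = id`, the map `one` identifies
`X` homeomorphically with the space of units of `G`. -/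
structure TopGroupoid (X G : Type*) [TopologicalSpace X] [TopologicalSpace G] where
  /-- range map -/
  r : G → X
  /-- source map -/
  s : G → X
  /-- units -/
  one : X → G
  /-- multiplication of composable arrows -/
  mul : G → G → G
  /-- inversion -/
  inv : G → G
  r_one : ∀ x, r (one x) = x
  s_one : ∀ x, s (one x) = x
  r_mul : ∀ a b, s a = r b → r (mul a b) = r a
  s_mul : ∀ a b, s a = r b → s (mul a b) = s b
  assoc : ∀ a b c, s a = r b → s b = r c → mul (mul a b) c = mul a (mul b c)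
  one_mul : ∀ a, mul (one (r a)) a = a
  mul_one : ∀ a, mul a (one (s a)) = a
  r_inv : ∀ a, r (inv a) = s a
  s_inv : ∀ a, s (inv a) = r a
  inv_mul : ∀ a, mul (inv a) a = one (s a)
  mul_inv : ∀ a, mul a (inv a) = one (r a)
  continuous_r : Continuous r
  continuous_s : Continuous s
  continuous_one : Continuous one
  continuous_inv : Continuous inv
  continuous_mul : ContinuousOn (fun p : G × G => mul p.1 p.2) {p | s p.1 = r p.2}

/-- An étale groupoid: a topological groupoid whose range and source maps are local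
homeomorphisms. -/
structure EtaleGroupoid (X G : Type*) [TopologicalSpace X] [TopologicalSpace G] extends
    TopGroupoid X G where
  isLocalHomeomorph_r : IsLocalHomeomorph r
  isLocalHomeomorph_s : IsLocalHomeomorph s

/-- A twist over the étale groupoid `𝒢`: a topological groupoid `grpd` on `S` (with the same unit
space `X`) together with continuous groupoid homomorphisms `i : 𝕋 × X → S` and `q : S → G`, both
the identity on the unit space, such that `i` is injective, `q` is surjective,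
`q⁻¹(unit at x) = i(𝕋 × {x})`, the image of `i` is central, and `q` is a locally trivial principal
`𝕋`-bundle for the action `z • σ = i(z, r σ) σ`. -/
structure Twist {X G : Type*} [TopologicalSpace X] [TopologicalSpace G]
    (𝒢 : EtaleGroupoid X G) (S : Type*) [TopologicalSpace S] where
  /-- the groupoid structure of the twist -/
  grpd : TopGroupoid X S
  /-- the inclusion of `𝕋 × X` -/
  i : Circle → X → S
  /-- the quotient map -/
  q : S → G
  continuous_i : Continuous (fun p : Circle × X => i p.1 p.2)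
  continuous_q : Continuous q
  r_i : ∀ z x, grpd.r (i z x) = x
  s_i : ∀ z x, grpd.s (i z x) = x
  i_one : ∀ x, i 1 x = grpd.one x
  i_mul : ∀ z w x, i (z * w) x = grpd.mul (i z x) (i w x)
  r_q : ∀ σ, 𝒢.r (q σ) = grpd.r σ
  s_q : ∀ σ, 𝒢.s (q σ) = grpd.s σ
  q_one : ∀ x, q (grpd.one x) = 𝒢.one x
  q_mul : ∀ σ τ, grpd.s σ = grpd.r τ → q (grpd.mul σ τ) = 𝒢.mul (q σ) (q τ)
  i_injective : ∀ x, Function.Injective (fun z => i z x)
  q_surjective : Function.Surjective q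
  exact : ∀ σ x, q σ = 𝒢.one x ↔ ∃ z, i z x = σ
  central : ∀ z σ, grpd.mul (i z (grpd.r σ)) σ = grpd.mul σ (i z (grpd.s σ))
  locally_trivial : ∀ α : G, ∃ U : Set G, IsOpen U ∧ α ∈ U ∧
    ∃ Φ : Circle × U ≃ₜ q ⁻¹' U, (∀ z β, q (Φ (z, β)) = β) ∧
      ∀ z w β, (Φ (z * w, β) : S) = grpd.mul (i z (𝒢.r β)) (Φ (w, β))

namespace TopGroupoid

variable {X G : Type*} [TopologicalSpace X] [TopologicalSpace G] (𝒢 : TopGroupoid X G)

theorem inv_mul_cancel_left {a b : G} (h : 𝒢.s a = 𝒢.r b) :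
    𝒢.mul (𝒢.inv a) (𝒢.mul a b) = b := by
  rw [← 𝒢.assoc _ _ _ (𝒢.s_inv a) h, 𝒢.inv_mul, h, 𝒢.one_mul]

theorem mul_inv_cancel_left {a b : G} (h : 𝒢.r a = 𝒢.r b) :
    𝒢.mul a (𝒢.mul (𝒢.inv a) b) = b := by
  rw [← 𝒢.assoc _ _ _ (𝒢.r_inv a).symm ((𝒢.s_inv a).trans h), 𝒢.mul_inv, h, 𝒢.one_mul]

theorem mul_inv_cancel_right {a b : G} (h : 𝒢.s a = 𝒢.r b) :
    𝒢.mul (𝒢.mul a b) (𝒢.inv b) = a := by
  rw [𝒢.assoc _ _ _ h (𝒢.r_inv b).symm, 𝒢.mul_inv, ← h, 𝒢.mul_one]

theorem inv_mul_cancel_right {a b : G} (h : 𝒢.s a = 𝒢.s b) :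
    𝒢.mul (𝒢.mul a (𝒢.inv b)) b = a := by
  rw [𝒢.assoc _ _ _ (h.trans (𝒢.r_inv b).symm) (𝒢.s_inv b), 𝒢.inv_mul, ← h, 𝒢.mul_one]

theorem inv_inv (a : G) : 𝒢.inv (𝒢.inv a) = a := by
  have h := 𝒢.inv_mul_cancel_left (a := 𝒢.inv a) (b := a) (𝒢.s_inv a)
  rw [𝒢.inv_mul] at h
  have h2 := 𝒢.mul_one (𝒢.inv (𝒢.inv a))
  rw [𝒢.s_inv, 𝒢.r_inv] at h2
  rw [← h2, h]

theorem inv_eq_of_mul_eq_one {a b : G} (h : 𝒢.s a = 𝒢.r b) (h1 : 𝒢.mul a b = 𝒢.one (𝒢.r a)) :
    𝒢.inv a = b := by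
  have h2 := 𝒢.inv_mul_cancel_left h
  rw [h1] at h2
  have h3 := 𝒢.mul_one (𝒢.inv a)
  rw [𝒢.s_inv] at h3
  rw [← h2, h3]

theorem inv_mul_rev {a b : G} (h : 𝒢.s a = 𝒢.r b) :
    𝒢.inv (𝒢.mul a b) = 𝒢.mul (𝒢.inv b) (𝒢.inv a) := by
  have hba : 𝒢.s (𝒢.inv b) = 𝒢.r (𝒢.inv a) := by rw [𝒢.s_inv, 𝒢.r_inv, h]
  apply 𝒢.inv_eq_of_mul_eq_one
  · rw [𝒢.s_mul _ _ h, 𝒢.r_mul _ _ hba, 𝒢.r_inv]
  · rw [← 𝒢.assoc _ _ _ (by rw [𝒢.s_mul _ _ h, 𝒢.r_inv]) hba, 𝒢.mul_inv_cancel_right h,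
      𝒢.mul_inv, 𝒢.r_mul _ _ h]

theorem inv_one (x : X) : 𝒢.inv (𝒢.one x) = 𝒢.one x := by
  apply 𝒢.inv_eq_of_mul_eq_one
  · rw [𝒢.s_one, 𝒢.r_one]
  · have := 𝒢.mul_one (𝒢.one x)
    rw [𝒢.s_one] at this
    rw [this, 𝒢.r_one]

theorem mul_left_cancel {a b c : G} (hb : 𝒢.s a = 𝒢.r b) (hc : 𝒢.s a = 𝒢.r c)
    (h : 𝒢.mul a b = 𝒢.mul a c) : b = c := by
  rw [← 𝒢.inv_mul_cancel_left hb, h, 𝒢.inv_mul_cancel_left hc]

theorem mul_right_cancel {a b c : G} (ha : 𝒢.s a = 𝒢.r c) (hb : 𝒢.s b = 𝒢.r c)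
    (h : 𝒢.mul a c = 𝒢.mul b c) : a = b := by
  rw [← 𝒢.mul_inv_cancel_right ha, h, 𝒢.mul_inv_cancel_right hb]

theorem one_injective : Function.Injective 𝒢.one := fun x y h => by
  rw [← 𝒢.r_one x, h, 𝒢.r_one]

include 𝒢 in
/-- The unit space of a Hausdorff groupoid is Hausdorff. -/
theorem t2Space_units [T2Space G] : T2Space X :=
  T2Space.of_injective_continuous 𝒢.one_injective 𝒢.continuous_one

theorem isClosedEmbedding_one [T2Space G] : IsClosedEmbedding 𝒢.one := by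
  refine IsClosedEmbedding.of_continuous_injective_isClosedMap 𝒢.continuous_one 𝒢.one_injective ?_
  intro C hC
  have h : 𝒢.one '' C = {a : G | 𝒢.one (𝒢.r a) = a} ∩ 𝒢.r ⁻¹' C := by
    ext a
    constructor
    · rintro ⟨x, hx, rfl⟩
      exact ⟨by rw [Set.mem_ofPred_eq, 𝒢.r_one], by rwa [Set.mem_preimage, 𝒢.r_one]⟩
    · rintro ⟨h1, h2⟩
      exact ⟨𝒢.r a, h2, h1⟩
  rw [h]
  exact (isClosed_eq (𝒢.continuous_one.comp 𝒢.continuous_r) continuous_id).inter
    (hC.preimage 𝒢.continuous_r)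

include 𝒢 in
theorem locallyCompactSpace_units [T2Space G] [LocallyCompactSpace G] : LocallyCompactSpace X :=
  𝒢.isClosedEmbedding_one.locallyCompactSpace

/-- Inversion as a homeomorphism. -/
def invHomeo : G ≃ₜ G where
  toFun := 𝒢.inv
  invFun := 𝒢.inv
  left_inv := 𝒢.inv_inv
  right_inv := 𝒢.inv_inv
  continuous_toFun := 𝒢.continuous_inv
  continuous_invFun := 𝒢.continuous_inv

end TopGroupoid

theorem EtaleGroupoid.isOpenMap_one {X G : Type*} [TopologicalSpace X] [TopologicalSpace G]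
    (𝒢 : EtaleGroupoid X G) : IsOpenMap 𝒢.one := by
  have h1 : IsLocalHomeomorph (𝒢.r ∘ 𝒢.one) := by
    have : 𝒢.r ∘ 𝒢.one = id := funext fun x => 𝒢.r_one x
    rw [this]
    exact (Homeomorph.refl X).isLocalHomeomorph
  exact (IsLocalHomeomorph.of_comp h1 𝒢.isLocalHomeomorph_r 𝒢.continuous_one).isOpenMap

namespace Twist

variable {X G S : Type*} [TopologicalSpace X] [TopologicalSpace G] [TopologicalSpace S]
  {𝒢 : EtaleGroupoid X G} (T : Twist 𝒢 S)

/-- The action of the circle on the twist, `z • σ = i(z, r σ) σ`. -/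
def act (z : Circle) (σ : S) : S := T.grpd.mul (T.i z (T.grpd.r σ)) σ

theorem comp_act (z : Circle) (σ : S) : T.grpd.s (T.i z (T.grpd.r σ)) = T.grpd.r σ := T.s_i _ _

@[simp] theorem r_act (z : Circle) (σ : S) : T.grpd.r (T.act z σ) = T.grpd.r σ := by
  rw [act, T.grpd.r_mul _ _ (T.comp_act z σ), T.r_i]

@[simp] theorem s_act (z : Circle) (σ : S) : T.grpd.s (T.act z σ) = T.grpd.s σ := by
  rw [act, T.grpd.s_mul _ _ (T.comp_act z σ)]

theorem q_i (z : Circle) (x : X) : T.q (T.i z x) = 𝒢.one x := (T.exact _ _).2 ⟨z, rfl⟩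

@[simp] theorem q_act (z : Circle) (σ : S) : T.q (T.act z σ) = T.q σ := by
  rw [act, T.q_mul _ _ (T.comp_act z σ), T.q_i, ← T.r_q, 𝒢.one_mul]

@[simp] theorem act_one (σ : S) : T.act 1 σ = σ := by
  rw [act, T.i_one, T.grpd.one_mul]

theorem act_act (z w : Circle) (σ : S) : T.act z (T.act w σ) = T.act (z * w) σ := by
  rw [act, r_act, act, act, T.i_mul, T.grpd.assoc]
  · rw [T.s_i, T.r_i]
  · rw [T.s_i]

theorem act_mul (z : Circle) {σ τ : S} (h : T.grpd.s σ = T.grpd.r τ) :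
    T.grpd.mul (T.act z σ) τ = T.act z (T.grpd.mul σ τ) := by
  rw [act, act, T.grpd.r_mul _ _ h, T.grpd.assoc _ _ _ (T.s_i _ _) h]

theorem act_eq_right (z : Circle) (σ : S) : T.act z σ = T.grpd.mul σ (T.i z (T.grpd.s σ)) :=
  T.central z σ

theorem mul_act (z : Circle) {σ τ : S} (h : T.grpd.s σ = T.grpd.r τ) :
    T.grpd.mul σ (T.act z τ) = T.act z (T.grpd.mul σ τ) := by
  rw [← T.act_mul z h, T.act_eq_right z σ, T.grpd.assoc _ _ _ (T.r_i _ _).symm
    (by rw [T.s_i, h]), act, h]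

theorem i_eq_act (z : Circle) (x : X) : T.i z x = T.act z (T.grpd.one x) := by
  rw [act, T.grpd.r_one]
  have := T.grpd.mul_one (T.i z x)
  rw [T.s_i] at this
  exact this.symm

theorem inv_i (z : Circle) (x : X) : T.grpd.inv (T.i z x) = T.i z⁻¹ x := by
  apply T.grpd.inv_eq_of_mul_eq_one
  · rw [T.s_i, T.r_i]
  · rw [← T.i_mul, mul_inv_cancel, T.i_one, T.r_i]

theorem inv_act (z : Circle) (σ : S) : T.grpd.inv (T.act z σ) = T.act z⁻¹ (T.grpd.inv σ) := by
  rw [act, T.grpd.inv_mul_rev (T.comp_act z σ), T.inv_i, act_eq_right, T.grpd.s_inv]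

theorem q_inv (σ : S) : T.q (T.grpd.inv σ) = 𝒢.inv (T.q σ) := by
  symm
  apply 𝒢.inv_eq_of_mul_eq_one
  · rw [T.s_q, T.r_q, T.grpd.r_inv]
  · rw [← T.q_mul _ _ (T.grpd.r_inv σ).symm, T.grpd.mul_inv, T.q_one, T.r_q]

/-- Two elements of the twist over the same arrow differ by an element of the circle. -/
theorem exists_act_eq {σ τ : S} (h : T.q σ = T.q τ) : ∃ z : Circle, T.act z σ = τ := by
  have hr : T.grpd.r σ = T.grpd.r τ := by rw [← T.r_q, ← T.r_q, h]
  have hs : T.grpd.s σ = T.grpd.s τ := by rw [← T.s_q, ← T.s_q, h]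
  have hτσ : T.grpd.s τ = T.grpd.r (T.grpd.inv σ) := by rw [T.grpd.r_inv, hs]
  have hq : T.q (T.grpd.mul τ (T.grpd.inv σ)) = 𝒢.one (T.grpd.r σ) := by
    rw [T.q_mul _ _ hτσ, T.q_inv, h, 𝒢.mul_inv, T.r_q, hr]
  obtain ⟨z, hz⟩ := (T.exact _ _).1 hq
  refine ⟨z, ?_⟩
  rw [act, hz, T.grpd.inv_mul_cancel_right hs.symm]

theorem act_injective (σ : S) : Function.Injective fun z => T.act z σ := by
  intro z w h
  apply T.i_injective (T.grpd.r σ)
  exact T.grpd.mul_right_cancel (T.s_i _ _) (T.s_i _ _) h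

/-- A set-theoretic section of the quotient map. -/
noncomputable def lift (α : G) : S := Function.surjInv T.q_surjective α

@[simp] theorem q_lift (α : G) : T.q (T.lift α) = α := Function.surjInv_eq T.q_surjective α

@[simp] theorem r_lift (α : G) : T.grpd.r (T.lift α) = 𝒢.r α := by rw [← T.r_q, q_lift]

@[simp] theorem s_lift (α : G) : T.grpd.s (T.lift α) = 𝒢.s α := by rw [← T.s_q, q_lift]

/-- Continuous local sections of the quotient map. -/
theorem exists_local_section (α : G) : ∃ P : G → S, ContinuousAt P α ∧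
    ∀ᶠ β in 𝓝 α, T.q (P β) = β := by
  classical
  obtain ⟨U, hU, hαU, Φ, hΦ, -⟩ := T.locally_trivial α
  refine ⟨fun β => if h : β ∈ U then (Φ (1, ⟨β, h⟩) : S) else T.lift β, ?_, ?_⟩
  · have h1 : ContinuousOn (fun β => if h : β ∈ U then (Φ (1, ⟨β, h⟩) : S) else T.lift β) U := by
      rw [continuousOn_iff_continuous_domRestrict]
      have : U.domRestrict (fun β => if h : β ∈ U then (Φ (1, ⟨β, h⟩) : S) else T.lift β)
          = fun β : U => (Φ (1, β) : S) := by
        ext β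
        simp
      rw [this]
      exact continuous_subtype_val.comp (Φ.continuous.comp (by fun_prop))
    exact h1.continuousAt (hU.mem_nhds hαU)
  · filter_upwards [hU.mem_nhds hαU] with β hβ
    rw [dif_pos hβ]
    exact hΦ _ _

end Twist

end Pool.Agent.TwGrpd
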