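import Pool.Agent.TwGrpd.Regular

set_option autoImplicit false
set_option linter.unusedSectionVars false

open Topology Set

namespace Pool.Agent.TwGrpd

namespace Twist

variable {X G S : Type*} [TopologicalSpace X] [TopologicalSpace G] [TopologicalSpace S]
  {𝒢 : EtaleGroupoid X G} (T : Twist 𝒢 S)

/-- The inclusion of `𝕋 × X` in the twist. -/
def iMap (p : Circle × X) : S := T.i p.1 p.2

theorem iMap_injective : Function.Injective T.iMap := by
  rintro ⟨z, x⟩ ⟨w, y⟩ h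
  have h' : T.i z x = T.i w y := h
  have hxy : x = y := by rw [← T.r_i z x, h', T.r_i]
  subst hxy
  have := T.i_injective x h'
  rw [this]

theorem continuous_iMap : Continuous T.iMap := T.continuous_i

theorem mem_range_iMap {σ : S} : σ ∈ range T.iMap ↔ T.q σ ∈ range 𝒢.one := by
  constructor
  · rintro ⟨⟨z, x⟩, rfl⟩
    exact ⟨x, (T.q_i z x).symm⟩
  · rintro ⟨x, hx⟩
    obtain ⟨z, hz⟩ := (T.exact σ x).1 hx.symm
    exact ⟨(z, x), hz⟩

/-- Extension of a function on the unit space to the twist. -/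
noncomputable def dgFun (h : X → ℂ) : S → ℂ :=
  Function.extend T.iMap (fun p => (starRingEnd ℂ) (p.1 : ℂ) * h p.2) 0

theorem dgFun_i (h : X → ℂ) (z : Circle) (x : X) :
    T.dgFun h (T.i z x) = (starRingEnd ℂ) (z : ℂ) * h x :=
  T.iMap_injective.extend_apply _ _ (z, x)

theorem dgFun_one (h : X → ℂ) (x : X) : T.dgFun h (T.grpd.one x) = h x := by
  rw [← T.i_one, dgFun_i]; simp

theorem dgFun_of_notMem (h : X → ℂ) {σ : S} (hσ : σ ∉ range T.iMap) : T.dgFun h σ = 0 :=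
  Function.extend_apply' _ _ _ hσ

theorem dgFun_ne_zero {h : X → ℂ} {σ : S} (hσ : T.dgFun h σ ≠ 0) :
    ∃ z x, σ = T.i z x ∧ h x ≠ 0 := by
  by_cases hr : σ ∈ range T.iMap
  · obtain ⟨⟨z, x⟩, rfl⟩ := hr
    refine ⟨z, x, rfl, fun h0 => hσ ?_⟩
    show T.dgFun h (T.i z x) = 0
    rw [dgFun_i, h0, mul_zero]
  · exact absurd (T.dgFun_of_notMem h hr) hσ

variable [T2Space S] [T2Space G] [LocallyCompactSpace G]

theorem isClosedEmbedding_iMap : IsClosedEmbedding T.iMap := by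
  refine IsClosedEmbedding.of_continuous_injective_isClosedMap T.continuous_iMap
    T.iMap_injective ?_
  have h1 : IsProperMap (T.grpd.r ∘ T.iMap) := by
    have : T.grpd.r ∘ T.iMap = Prod.snd := funext fun p => T.r_i _ _
    rw [this]
    exact isProperMap_snd_of_compactSpace
  exact (isProperMap_of_comp_of_t2 T.continuous_iMap T.grpd.continuous_r h1).isClosedMap

theorem isOpenEmbedding_iMap : IsOpenEmbedding T.iMap := by
  refine ⟨T.isClosedEmbedding_iMap.isEmbedding, ?_⟩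
  have : range T.iMap = T.q ⁻¹' range 𝒢.one := by
    ext σ; exact T.mem_range_iMap
  rw [this]
  exact (𝒢.isOpenMap_one.isOpen_range).preimage T.continuous_q

theorem dgFun_mem {h : X → ℂ} (hc : Continuous h) (hs : HasCompactSupport h) :
    T.dgFun h ∈ T.Cc := by
  refine ⟨?_, ?_, ?_⟩
  · rw [continuous_iff_continuousAt]
    intro σ
    by_cases hσ : σ ∈ range T.iMap
    · obtain ⟨p, rfl⟩ := hσ
      rw [← T.isOpenEmbedding_iMap.continuousAt_iff]
      have : T.dgFun h ∘ T.iMap = fun p : Circle × X => (starRingEnd ℂ) (p.1 : ℂ) * h p.2 :=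
        funext fun p => T.dgFun_i h p.1 p.2
      rw [this]
      refine Continuous.continuousAt ?_
      exact (Complex.continuous_conj.comp (continuous_subtype_val.comp continuous_fst)).mul
        (hc.comp continuous_snd)
    · have hev : ∀ᶠ τ in 𝓝 σ, τ ∉ range T.iMap :=
        T.isClosedEmbedding_iMap.isClosed_range.isOpen_compl.mem_nhds hσ
      have hEq : T.dgFun h =ᶠ[𝓝 σ] fun _ => 0 := by
        filter_upwards [hev] with τ hτ using T.dgFun_of_notMem h hτ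
      exact continuousAt_const.congr hEq.symm
  · refine HasCompactSupport.intro
      (K := T.iMap '' (univ ×ˢ tsupport h)) ?_ ?_
    · exact (isCompact_univ.prod hs.isCompact).image T.continuous_iMap
    · intro σ hσ
      by_contra hne
      obtain ⟨z, x, rfl, hx⟩ := T.dgFun_ne_zero hne
      exact hσ ⟨(z, x), ⟨mem_univ _, subset_tsupport _ hx⟩, rfl⟩
  · intro w σ
    by_cases hσ : σ ∈ range T.iMap
    · obtain ⟨⟨z, x⟩, rfl⟩ := hσ
      show T.dgFun h (T.act w (T.i z x)) = _ * T.dgFun h (T.i z x)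
      rw [act, T.r_i, ← T.i_mul, dgFun_i, dgFun_i, Circle.coe_mul, map_mul]
      ring
    · have hσ' : T.act w σ ∉ range T.iMap := by
        rw [T.mem_range_iMap, q_act, ← T.mem_range_iMap]; exact hσ
      rw [T.dgFun_of_notMem h hσ, T.dgFun_of_notMem h hσ', mul_zero]

/-- Continuous compactly supported functions on the unit space (as a predicate). -/
def IsCc {X : Type*} [TopologicalSpace X] (h : X → ℂ) : Prop := Continuous h ∧ HasCompactSupport h

/-- The embedding of `C_c(X)` in `C_c(G, Σ)`. -/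
noncomputable def dg (h : X → ℂ) (hh : IsCc h) : T.Cc := ⟨T.dgFun h, T.dgFun_mem hh.1 hh.2⟩

theorem dg_apply (h : X → ℂ) (hh : IsCc h) (σ : S) : (T.dg h hh : S → ℂ) σ = T.dgFun h σ := rfl

theorem conv_dg_left (h : X → ℂ) (hh : IsCc h) (f : T.Cc) (σ : S) :
    ((T.dg h hh * f : T.Cc) : S → ℂ) σ = h (T.grpd.r σ) * (f : S → ℂ) σ := by
  rw [coe_mul, T.conv_eq_of_unique (T.dg h hh).2 f.2 (σ := σ) (τ := T.grpd.one (T.grpd.r σ))
    (T.grpd.r_one _)]
  · rw [dg_apply, dgFun_one, T.grpd.inv_one, T.grpd.one_mul]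
  · intro α hα hne
    obtain ⟨z, x, hz, -⟩ := T.dgFun_ne_zero hne
    have h1 : α = 𝒢.one x := by rw [← T.q_lift α, hz, T.q_i]
    rw [T.q_one, h1, ← hα, h1, 𝒢.r_one]

theorem conv_eq_of_unique' {f g : S → ℂ} (hf : f ∈ T.Cc) (hg : g ∈ T.Cc) {σ τ : S}
    (hr : T.grpd.r τ = T.grpd.r σ)
    (h : ∀ α, 𝒢.r α = T.grpd.r σ → g (T.grpd.mul (T.grpd.inv (T.lift α)) σ) ≠ 0 → α = T.q τ) :
    T.conv f g σ = f τ * g (T.grpd.mul (T.grpd.inv τ) σ) := by
  rw [conv, finsum_mem_def, finsum_eq_single _ (T.q τ)]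
  · rw [Set.indicator_of_mem]
    · exact T.term_eq hf hg (by rw [r_lift, T.r_q, hr]) (by rw [q_lift])
    · simp only [Set.mem_ofPred_eq, T.r_q, hr]
  · intro α hα
    by_cases h1 : 𝒢.r α = T.grpd.r σ
    · rw [Set.indicator_of_mem (by exact h1)]
      by_cases h2 : g (T.grpd.mul (T.grpd.inv (T.lift α)) σ) = 0
      · rw [h2, mul_zero]
      · exact absurd (h α h1 h2) hα
    · rw [Set.indicator_of_notMem (by exact h1)]

theorem conv_dg_right (h : X → ℂ) (hh : IsCc h) (f : T.Cc) (σ : S) :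
    ((f * T.dg h hh : T.Cc) : S → ℂ) σ = (f : S → ℂ) σ * h (T.grpd.s σ) := by
  rw [coe_mul, T.conv_eq_of_unique' f.2 (T.dg h hh).2 (σ := σ) (τ := σ) rfl]
  · rw [T.grpd.inv_mul, dg_apply, dgFun_one]
  · intro α hα hne
    obtain ⟨z, x, hz, -⟩ := T.dgFun_ne_zero hne
    have hc : T.grpd.s (T.grpd.inv (T.lift α)) = T.grpd.r σ := by rw [T.grpd.s_inv, r_lift, hα]
    have h1 : 𝒢.mul (𝒢.inv α) (T.q σ) = 𝒢.one x := by
      have := congrArg T.q hz
      rwa [T.q_mul _ _ hc, T.q_inv, q_lift, T.q_i] at this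
    have hc' : 𝒢.s (𝒢.inv α) = 𝒢.r (T.q σ) := by rw [𝒢.s_inv, hα, T.r_q]
    have h2 : 𝒢.r (𝒢.inv α) = x := by
      rw [← 𝒢.r_mul _ _ hc', h1, 𝒢.r_one]
    have h3 := 𝒢.mul_inv_cancel_left (a := α) (b := T.q σ) (by rw [hα, T.r_q])
    rw [h1, ← h2, 𝒢.r_inv, 𝒢.mul_one] at h3
    exact h3

theorem star_dg (h : X → ℂ) (hh : IsCc h) (hh' : IsCc (fun x => (starRingEnd ℂ) (h x))) :
    star (T.dg h hh) = T.dg (fun x => (starRingEnd ℂ) (h x)) hh' := by
  apply Subtype.ext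
  ext σ
  rw [coe_star, invol, dg_apply, dg_apply]
  by_cases hσ : σ ∈ range T.iMap
  · obtain ⟨⟨z, x⟩, rfl⟩ := hσ
    show (starRingEnd ℂ) (T.dgFun h (T.grpd.inv (T.i z x))) = T.dgFun _ (T.i z x)
    rw [T.inv_i, dgFun_i, dgFun_i, map_mul, circle_inv, Complex.conj_conj]
  · have hσ' : T.grpd.inv σ ∉ range T.iMap := by
      rintro ⟨⟨z, x⟩, hz⟩
      apply hσ
      refine ⟨(z⁻¹, x), ?_⟩
      have h1 : T.i z x = T.grpd.inv σ := hz
      show T.i z⁻¹ x = σ
      rw [← T.inv_i, h1, T.grpd.inv_inv]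
    rw [T.dgFun_of_notMem _ hσ, T.dgFun_of_notMem _ hσ', map_zero]

theorem IsCc.mul {h k : X → ℂ} (hh : IsCc h) (hk : IsCc k) : IsCc (fun x => h x * k x) :=
  ⟨hh.1.mul hk.1, hh.2.mul_right⟩

theorem dg_mul (h k : X → ℂ) (hh : IsCc h) (hk : IsCc k) :
    T.dg h hh * T.dg k hk = T.dg (fun x => h x * k x) (IsCc.mul hh hk) := by
  apply Subtype.ext
  ext σ
  rw [conv_dg_left, dg_apply, dg_apply]
  by_cases hσ : σ ∈ range T.iMap
  · obtain ⟨⟨z, x⟩, rfl⟩ := hσ
    show h (T.grpd.r (T.i z x)) * T.dgFun k (T.i z x) = T.dgFun _ (T.i z x)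
    rw [dgFun_i, dgFun_i, T.r_i]
    ring
  · rw [T.dgFun_of_notMem _ hσ, T.dgFun_of_notMem _ hσ, mul_zero]

/-- An element of `C_c(G, Σ)` supported over the unit space comes from `C_c(X)`. -/
theorem eq_dg {F : T.Cc} (hF : ∀ σ, (F : S → ℂ) σ ≠ 0 → T.q σ ∈ range 𝒢.one) :
    ∃ hh : IsCc (fun x => (F : S → ℂ) (T.grpd.one x)),
      F = T.dg (fun x => (F : S → ℂ) (T.grpd.one x)) hh := by
  have hh : IsCc (fun x => (F : S → ℂ) (T.grpd.one x)) := by
    haveI := 𝒢.t2Space_units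
    refine ⟨(Cc.continuous T F.2).comp T.grpd.continuous_one, ?_⟩
    refine HasCompactSupport.intro (K := T.grpd.r '' tsupport (F : S → ℂ))
      ((Cc.compact T F.2).isCompact.image T.grpd.continuous_r) fun x hx => ?_
    by_contra hne
    exact hx ⟨T.grpd.one x, subset_tsupport _ hne, T.grpd.r_one x⟩
  refine ⟨hh, ?_⟩
  apply Subtype.ext
  ext σ
  rw [dg_apply]
  by_cases hσ : σ ∈ range T.iMap
  · obtain ⟨⟨z, x⟩, rfl⟩ := hσ
    show (F : S → ℂ) (T.i z x) = T.dgFun _ (T.i z x)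
    rw [dgFun_i, T.i_eq_act, Cc.equiv T F.2]
  · rw [T.dgFun_of_notMem _ hσ]
    by_contra hne
    exact hσ (T.mem_range_iMap.2 (hF σ hne))

end Twist

end Pool.Agent.TwGrpd
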