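import Pool.Agent.TwGrpd.InfiniteCase

set_option autoImplicit false
set_option linter.unusedSectionVars false

open Topology Set Filter

namespace Pool.Agent.TwGrpd

section Isometries

variable {H : Type*} [NormedAddCommGroup H] [InnerProductSpace ℂ H] [CompleteSpace H]

theorem exists_isometry {I : Type*} (b : HilbertBasis I ℂ H) {w : I → H} (hw : Orthonormal ℂ w) :
    ∃ a : H →L[ℂ] H, (∀ i, a (b i) = w i) ∧ star a * a = 1 := by
  classical
  have hW := hw.orthogonalFamily
  let W : H →ₗᵢ[ℂ] H := hW.linearIsometry.comp b.repr.toLinearIsometry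
  refine ⟨W.toContinuousLinearMap, fun i => ?_, ?_⟩
  · show hW.linearIsometry (b.repr (b i)) = w i
    rw [b.repr_self, hW.linearIsometry_apply_single]
    simp
  · rw [ContinuousLinearMap.star_eq_adjoint]
    exact (ContinuousLinearMap.norm_map_iff_adjoint_comp_self W.toContinuousLinearMap).1
      fun x => W.norm_map x

/-- Cuntz isometries. -/
theorem exists_cuntz (hH : ¬ FiniteDimensional ℂ H) : ∃ s t : H →L[ℂ] H,
    star s * s = 1 ∧ star t * t = 1 ∧ s * star s + t * star t = 1 := by
  classical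
  obtain ⟨w, b, -⟩ := exists_hilbertBasis ℂ H
  have hinf : Infinite w := by
    by_contra hfin
    rw [not_infinite_iff_finite] at hfin
    apply hH
    have := Fintype.ofFinite w
    exact Module.Basis.finiteDimensional_of_finite (b.toOrthonormalBasis.toBasis)
  obtain ⟨e⟩ : Nonempty (w ⊕ w ≃ w) := by
    rw [← Cardinal.eq, Cardinal.mk_sum]
    simp only [Cardinal.lift_id]
    exact Cardinal.add_eq_self (Cardinal.infinite_iff.1 hinf)
  obtain ⟨s, hs, hs'⟩ := exists_isometry b
    (w := fun i => b (e (Sum.inl i))) (b.orthonormal.comp _ (e.injective.comp Sum.inl_injective))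
  obtain ⟨t, ht, ht'⟩ := exists_isometry b
    (w := fun i => b (e (Sum.inr i))) (b.orthonormal.comp _ (e.injective.comp Sum.inr_injective))
  have hzero : ∀ x : H, (∀ k, inner ℂ (b k) x = 0) → x = 0 := by
    intro x hx
    have : b.repr x = 0 := by
      ext k
      rw [b.repr_apply_apply, hx]; rfl
    exact (LinearIsometryEquiv.map_eq_zero_iff b.repr).1 this
  refine ⟨s, t, hs', ht', ?_⟩
  refine ContinuousLinearMap.ext_on
    (Submodule.dense_iff_topologicalClosure_eq_top.2 b.dense_span) ?_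
  rintro _ ⟨p, rfl⟩
  have hss : ∀ i, (star s) (b (e (Sum.inl i))) = b i := by
    intro i
    rw [← hs i, ← ContinuousLinearMap.mul_apply, hs']; rfl
  have htt : ∀ i, (star t) (b (e (Sum.inr i))) = b i := by
    intro i
    rw [← ht i, ← ContinuousLinearMap.mul_apply, ht']; rfl
  have hst : ∀ i, (star s) (b (e (Sum.inr i))) = 0 := by
    intro i
    apply hzero
    intro k
    rw [ContinuousLinearMap.star_eq_adjoint, ContinuousLinearMap.adjoint_inner_right, hs]
    exact b.orthonormal.2 (by simp)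
  have hts : ∀ i, (star t) (b (e (Sum.inl i))) = 0 := by
    intro i
    apply hzero
    intro k
    rw [ContinuousLinearMap.star_eq_adjoint, ContinuousLinearMap.adjoint_inner_right, ht]
    exact b.orthonormal.2 (by simp)
  obtain ⟨q, rfl⟩ := e.surjective p
  rw [ContinuousLinearMap.add_apply, ContinuousLinearMap.mul_apply, ContinuousLinearMap.mul_apply]
  rcases q with i | i
  · rw [hss, hts, map_zero, add_zero, hs]; rfl
  · rw [hst, htt, map_zero, zero_add, ht]; rfl

end Isometries

namespace Twist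

variable {X G S : Type*} [TopologicalSpace X] [TopologicalSpace G] [TopologicalSpace S]
  {𝒢 : EtaleGroupoid X G} (T : Twist 𝒢 S)
  [T2Space S] [T2Space G] [LocallyCompactSpace G]
  {H : Type*} [NormedAddCommGroup H] [InnerProductSpace ℂ H] [CompleteSpace H]
  (j : T.Cc →⋆ₙₐ[ℂ] (H →L[ℂ] H))

section Trace

variable [Fintype X]

/-- The trace `∑_x f(x)`. -/
noncomputable def tr (f : T.Cc) : ℂ := ∑ x : X, (f : S → ℂ) (T.grpd.one x)

theorem tr_sub (f g : T.Cc) : T.tr (f - g) = T.tr f - T.tr g := by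
  rw [tr, tr, tr, ← Finset.sum_sub_distrib]; rfl

theorem tr_add (f g : T.Cc) : T.tr (f + g) = T.tr f + T.tr g := by
  rw [tr, tr, tr, ← Finset.sum_add_distrib]; rfl

theorem tr_mul (f g : T.Cc) : T.tr (f * g) =
    ∑ᶠ α : G, (f : S → ℂ) (T.lift α) * (g : S → ℂ) (T.grpd.inv (T.lift α)) := by
  classical
  have hfin : {α : G | (f : S → ℂ) (T.lift α) ≠ 0}.Finite := by
    have h1 : {α : G | (f : S → ℂ) (T.lift α) ≠ 0} ⊆
        ⋃ x : X, {γ : G | 𝒢.r γ = x ∧ (f : S → ℂ) (T.lift γ) ≠ 0} := by
      intro α hα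
      exact mem_iUnion.2 ⟨𝒢.r α, rfl, hα⟩
    exact (Set.finite_iUnion fun x => T.finite_fiber_r f.2 x).subset h1
  have h2 : ∀ x : X, ((f * g : T.Cc) : S → ℂ) (T.grpd.one x) =
      ∑ᶠ α : G, Set.indicator {α : G | 𝒢.r α = x}
        (fun α => (f : S → ℂ) (T.lift α) * (g : S → ℂ) (T.grpd.inv (T.lift α))) α := by
    intro x
    rw [coe_mul, conv, finsum_mem_def, T.grpd.r_one]
    refine finsum_congr fun α => ?_
    by_cases hα : 𝒢.r α = x
    · rw [Set.indicator_of_mem (by exact hα), Set.indicator_of_mem (by exact hα)]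
      have h3 := T.grpd.mul_one (T.grpd.inv (T.lift α))
      rw [T.grpd.s_inv, r_lift, hα] at h3
      rw [h3]
    · rw [Set.indicator_of_notMem (by exact hα), Set.indicator_of_notMem (by exact hα)]
  rw [tr, Finset.sum_congr rfl fun x _ => h2 x, ← finsum_sum_comm]
  · refine finsum_congr fun α => ?_
    rw [Finset.sum_eq_single (𝒢.r α)]
    · rw [Set.indicator_of_mem]; rfl
    · intro x _ hx
      rw [Set.indicator_of_notMem]
      exact fun h => hx h.symm
    · intro h; exact absurd (Finset.mem_univ _) h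
  · intro x _
    refine hfin.subset fun α hα => ?_
    have hα' := Set.indicator_apply_ne_zero.1 hα
    exact left_ne_zero_of_mul hα'.2

theorem tr_mul_comm (f g : T.Cc) : T.tr (f * g) = T.tr (g * f) := by
  rw [tr_mul, tr_mul, ← finsum_comp_equiv (𝒢.invHomeo).toEquiv]
  refine finsum_congr fun α => ?_
  show (f : S → ℂ) (T.lift (𝒢.inv α)) * (g : S → ℂ) (T.grpd.inv (T.lift (𝒢.inv α))) =
    (g : S → ℂ) (T.lift α) * (f : S → ℂ) (T.grpd.inv (T.lift α))
  obtain ⟨z, hz⟩ := T.exists_act_eq (σ := T.grpd.inv (T.lift α)) (τ := T.lift (𝒢.inv α))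
    (by rw [T.q_inv, q_lift, q_lift])
  rw [← hz, T.inv_act, T.grpd.inv_inv, Cc.equiv T g.2, Cc.equiv T f.2, circle_inv,
    Complex.conj_conj]
  have := circle_mul_conj z
  linear_combination ((g : S → ℂ) (T.lift α) * (f : S → ℂ) (T.grpd.inv (T.lift α))) * this

theorem norm_tr_le (hreg : ∀ u f, ‖T.regRep u f‖ ≤ ‖j f‖) (f : T.Cc) :
    ‖T.tr f‖ ≤ Fintype.card X * ‖j f‖ := by
  refine (norm_sum_le _ _).trans ?_
  have h : ∀ x ∈ (Finset.univ : Finset X), ‖(f : S → ℂ) (T.grpd.one x)‖ ≤ ‖j f‖ :=
    fun x _ => (T.apply_one_le f x).trans (hreg x f)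
  refine (Finset.sum_le_sum h).trans ?_
  simp

theorem tendsto_tr (hreg : ∀ u f, ‖T.regRep u f‖ ≤ ‖j f‖) {F : ℕ → T.Cc} {e : T.Cc}
    (h : Tendsto (fun n => j (F n)) atTop (𝓝 (j e))) :
    Tendsto (fun n => T.tr (F n)) atTop (𝓝 (T.tr e)) := by
  rw [tendsto_iff_norm_sub_tendsto_zero] at h ⊢
  have h' := h.const_mul (Fintype.card X : ℝ)
  rw [mul_zero] at h'
  refine squeeze_zero (fun n => norm_nonneg _) (fun n => ?_) h'
  rw [← tr_sub, ← map_sub]
  exact T.norm_tr_le j hreg _

end Trace

theorem finite_case [Finite X] (hH : ¬ FiniteDimensional ℂ H)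
    (hreg : ∀ u f, ‖T.regRep u f‖ ≤ ‖j f‖) (hd : DenseRange j) : False := by
  have := Fintype.ofFinite X
  have h1 : IsCc (fun _ : X => (1 : ℂ)) := ⟨continuous_const, HasCompactSupport.of_compactSpace _⟩
  set e : T.Cc := T.dg _ h1 with he
  have hef : ∀ f : T.Cc, e * f = f := by
    intro f
    apply Subtype.ext
    ext σ
    rw [he, conv_dg_left, one_mul]
  have hje : j e = 1 := by
    have h2 : (fun a : H →L[ℂ] H => j e * a) = id := by
      refine hd.equalizer (continuous_const.mul continuous_id) continuous_id ?_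
      ext1 f
      show j e * j f = j f
      rw [← map_mul, hef]
    have := congrFun h2 1
    simpa using this
  obtain ⟨s, t, hs, ht, hst⟩ := exists_cuntz hH
  have hseq : ∀ a : H →L[ℂ] H, ∃ F : ℕ → T.Cc, Tendsto (fun n => j (F n)) atTop (𝓝 a) := by
    intro a
    obtain ⟨x, hx, hxa⟩ := mem_closure_iff_seq_limit.1 (hd a)
    choose F hF using hx
    exact ⟨F, by simpa only [hF] using hxa⟩
  obtain ⟨A, hA⟩ := hseq s
  obtain ⟨B, hB⟩ := hseq t
  have hA1 : Tendsto (fun n => j (star (A n) * A n)) atTop (𝓝 (j e)) := by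
    simp only [map_mul, map_star]
    rw [hje, ← hs]
    exact (hA.star).mul hA
  have hB1 : Tendsto (fun n => j (star (B n) * B n)) atTop (𝓝 (j e)) := by
    simp only [map_mul, map_star]
    rw [hje, ← ht]
    exact (hB.star).mul hB
  have hAB : Tendsto (fun n => j (A n * star (A n) + B n * star (B n))) atTop (𝓝 (j e)) := by
    simp only [map_add, map_mul, map_star]
    rw [hje, ← hst]
    exact (hA.mul hA.star).add (hB.mul hB.star)
  have k1 := T.tendsto_tr j hreg hA1
  have k2 := T.tendsto_tr j hreg hB1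
  have k3 := T.tendsto_tr j hreg hAB
  have k4 : (fun n => T.tr (A n * star (A n) + B n * star (B n))) =
      fun n => T.tr (star (A n) * A n) + T.tr (star (B n) * B n) := by
    ext1 n
    rw [tr_add, T.tr_mul_comm (A n), T.tr_mul_comm (B n)]
  rw [k4] at k3
  have k5 := tendsto_nhds_unique (k1.add k2) k3
  have k6 : T.tr e = Fintype.card X := by
    rw [tr]
    simp only [he, dg_apply, dgFun_one]
    simp
  have k7 : (Fintype.card X : ℂ) = 0 := by
    rw [← k6]; linear_combination k5
  have k8 : IsEmpty X := Fintype.card_eq_zero_iff.1 (by exact_mod_cast k7)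
  have k9 : e = 0 := by
    apply Subtype.ext
    ext σ
    exact (k8.false (T.grpd.r σ)).elim
  rw [k9, map_zero] at hje
  apply hH
  have : Subsingleton H := ⟨fun x y => by
    have h1 : ∀ z : H, z = 0 := fun z => by
      have := DFunLike.congr_fun hje z
      simpa using this.symm
    rw [h1 x, h1 y]⟩
  infer_instance

/-- Main theorem: `C_c(G, Σ)` does not map densely to `B(H)` by a `*`-homomorphism whose norm
dominates the regular representations. -/
theorem not_denseRange (hH : ¬ FiniteDimensional ℂ H)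
    (hreg : ∀ u f, ‖T.regRep u f‖ ≤ ‖j f‖) : ¬ DenseRange j := by
  intro hd
  rcases finite_or_infinite X with h | h
  · exact T.finite_case j hH hreg hd
  · exact T.infinite_case j hreg hd

end Twist

end Pool.Agent.TwGrpd
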