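import Pool.Agent.TwGrpd.MatrixOp

set_option autoImplicit false

open Topology Set

namespace Pool.Agent.TwGrpd

/-- Walsh-Hadamard matrix. -/
def had {k : ℕ} (x y : Fin k → Bool) : ℝ := ∏ i, if x i && y i then -1 else 1

theorem had_comm {k : ℕ} (x y : Fin k → Bool) : had x y = had y x := by
  unfold had
  exact Finset.prod_congr rfl fun i _ => by rw [Bool.and_comm]

theorem had_mul_self {k : ℕ} (x y : Fin k → Bool) : had x y * had x y = 1 := by
  unfold had
  rw [← Finset.prod_mul_distrib]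
  exact Finset.prod_eq_one fun i _ => by split_ifs <;> norm_num

theorem sum_had {k : ℕ} (y y' : Fin k → Bool) :
    ∑ x, had x y * had x y' = if y = y' then (2 : ℝ) ^ k else 0 := by
  have h1 : ∀ x : Fin k → Bool, had x y * had x y' =
      ∏ i, (fun (i : Fin k) (b : Bool) => (if b && y i then (-1 : ℝ) else 1) *
        (if b && y' i then -1 else 1)) i (x i) := by
    intro x
    rw [had, had, ← Finset.prod_mul_distrib]
  rw [Finset.sum_congr rfl fun x _ => h1 x]
  refine (Fintype.prod_sum (κ := fun _ : Fin k => Bool) (fun (i : Fin k) (b : Bool) =>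
    (if b && y i then (-1 : ℝ) else 1) * (if b && y' i then -1 else 1))).symm.trans ?_
  split_ifs with h
  · subst h
    have : ∀ i : Fin k, ∑ b : Bool, (if b && y i then (-1 : ℝ) else 1) *
        (if b && y i then -1 else 1) = 2 := by
      intro i
      cases y i <;> norm_num
    rw [Finset.prod_congr rfl fun i _ => this i]
    simp
  · obtain ⟨i, hi⟩ : ∃ i, y i ≠ y' i := by
      by_contra hcon
      push Not at hcon
      exact h (funext hcon)
    refine Finset.prod_eq_zero (Finset.mem_univ i) ?_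
    revert hi
    cases y i <;> cases y' i <;> norm_num

/-- The index set. -/
abbrev HI : Type := Σ k : ℕ, (Fin k → Bool)

section

variable {H : Type*} [NormedAddCommGroup H] [InnerProductSpace ℂ H]

/-- Image of the orthonormal family under the normalised Hadamard matrices. -/
noncomputable def hadFam (v : HI → H) (p : HI) : H :=
  (((Real.sqrt (2 ^ p.1))⁻¹ : ℝ) : ℂ) • ∑ x, ((had x p.2 : ℝ) : ℂ) • v ⟨p.1, x⟩

theorem orthonormal_level {v : HI → H} (hv : Orthonormal ℂ v) (k : ℕ) :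
    Orthonormal ℂ (fun x : Fin k → Bool => v ⟨k, x⟩) :=
  hv.comp (fun x => (⟨k, x⟩ : HI)) fun x y h => by
    simpa using h

theorem inner_hadFam {v : HI → H} (hv : Orthonormal ℂ v) (k : ℕ) (y y' : Fin k → Bool) :
    inner ℂ (hadFam v ⟨k, y⟩) (hadFam v ⟨k, y'⟩) = if y = y' then 1 else 0 := by
  unfold hadFam
  rw [inner_smul_left, inner_smul_right, (orthonormal_level hv k).inner_sum]
  simp only [Complex.conj_ofReal]
  have h1 : ∑ x, ((had x y : ℝ) : ℂ) * ((had x y' : ℝ) : ℂ) =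
      ((if y = y' then (2 : ℝ) ^ k else 0 : ℝ) : ℂ) := by
    rw [← sum_had]; push_cast; rfl
  rw [h1]
  have h2 : (Real.sqrt (2 ^ k))⁻¹ * ((Real.sqrt (2 ^ k))⁻¹ * (2 : ℝ) ^ k) = 1 := by
    have h3 : (0 : ℝ) < Real.sqrt (2 ^ k) := Real.sqrt_pos.2 (by positivity)
    have h4 : Real.sqrt (2 ^ k) * Real.sqrt (2 ^ k) = (2 : ℝ) ^ k :=
      Real.mul_self_sqrt (by positivity)
    field_simp
    rw [sq, h4]
  split_ifs with h
  · rw [← Complex.ofReal_mul, ← Complex.ofReal_mul, h2, Complex.ofReal_one]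
  · simp

theorem orthonormal_hadFam {v : HI → H} (hv : Orthonormal ℂ v) : Orthonormal ℂ (hadFam v) := by
  classical
  rw [orthonormal_iff_ite]
  rintro ⟨k, y⟩ ⟨k', y'⟩
  by_cases h : k = k'
  · subst h
    rw [inner_hadFam hv]
    simp
  · have h1 : (⟨k, y⟩ : HI) ≠ ⟨k', y'⟩ := by
      intro h2; exact h (congrArg Sigma.fst h2)
    rw [if_neg h1]
    unfold hadFam
    rw [inner_smul_left, inner_smul_right, sum_inner]
    have : ∀ x : Fin k → Bool, inner ℂ (((had x y : ℝ) : ℂ) • v ⟨k, x⟩)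
        (∑ x, ((had x y' : ℝ) : ℂ) • v ⟨k', x⟩) = 0 := by
      intro x
      rw [inner_sum]
      refine Finset.sum_eq_zero fun x' _ => ?_
      rw [inner_smul_left, inner_smul_right, hv.2, mul_zero, mul_zero]
      intro h2; exact h (congrArg Sigma.fst h2)
    simp only [this, Finset.sum_const_zero, mul_zero]

/-- For orthonormal families `v`, `w` there is a bounded operator mapping `v` to `w`. -/
theorem exists_op_of_orthonormal [CompleteSpace H] {I : Type*} {v w : I → H}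
    (hv : Orthonormal ℂ v) (hw : Orthonormal ℂ w) : ∃ a : H →L[ℂ] H, ∀ i, a (v i) = w i := by
  classical
  have hV := hv.orthogonalFamily
  have hW := hw.orthogonalFamily
  let V : L2 I →L[ℂ] H := hV.linearIsometry.toContinuousLinearMap
  let W : L2 I →L[ℂ] H := hW.linearIsometry.toContinuousLinearMap
  have hVd : ∀ i, V (dl i) = v i := by
    intro i
    show hV.linearIsometry (dl i) = v i
    rw [dl, hV.linearIsometry_apply_single]
    simp
  have hWd : ∀ i, W (dl i) = w i := by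
    intro i
    show hW.linearIsometry (dl i) = w i
    rw [dl, hW.linearIsometry_apply_single]
    simp
  refine ⟨W ∘L (ContinuousLinearMap.adjoint V), fun i => ?_⟩
  have h1 : ContinuousLinearMap.adjoint V (v i) = dl i := by
    rw [← hVd i]
    have h2 : (ContinuousLinearMap.adjoint V) ∘L V = ContinuousLinearMap.id ℂ (L2 I) := by
      refine (ContinuousLinearMap.norm_map_iff_adjoint_comp_self V).1 fun x => ?_
      exact hV.linearIsometry.norm_map x
    exact DFunLike.congr_fun h2 (dl i)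
  rw [ContinuousLinearMap.comp_apply, h1, hWd]

theorem had_sum_le {v : HI → H} (hv : Orthonormal ℂ v) (k : ℕ) (T : H →L[ℂ] H) :
    ‖∑ x, ∑ y, ((had x y : ℝ) : ℂ) * inner ℂ (v ⟨k, x⟩) (T (v ⟨k, y⟩))‖ ≤
      Real.sqrt (2 ^ k) * 2 ^ k * ‖T‖ := by
  have h3 : (0 : ℝ) < Real.sqrt (2 ^ k) := Real.sqrt_pos.2 (by positivity)
  have h1 : ∑ x, ∑ y, ((had x y : ℝ) : ℂ) * inner ℂ (v ⟨k, x⟩) (T (v ⟨k, y⟩)) =
      ((Real.sqrt (2 ^ k) : ℝ) : ℂ) * ∑ y, inner ℂ (hadFam v ⟨k, y⟩) (T (v ⟨k, y⟩)) := by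
    rw [Finset.sum_comm, Finset.mul_sum]
    refine Finset.sum_congr rfl fun y _ => ?_
    unfold hadFam
    rw [inner_smul_left, sum_inner, Complex.conj_ofReal, ← mul_assoc, ← Complex.ofReal_mul]
    simp only
    rw [mul_inv_cancel₀ h3.ne', Complex.ofReal_one, one_mul]
    refine Finset.sum_congr rfl fun x _ => ?_
    rw [inner_smul_left, Complex.conj_ofReal]
  rw [h1, norm_mul, Complex.norm_real, Real.norm_of_nonneg h3.le, mul_assoc]
  refine mul_le_mul_of_nonneg_left ?_ h3.le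
  refine (norm_sum_le _ _).trans ?_
  have h2 : ∀ y ∈ (Finset.univ : Finset (Fin k → Bool)),
      ‖inner ℂ (hadFam v ⟨k, y⟩) (T (v ⟨k, y⟩))‖ ≤ ‖T‖ := by
    intro y _
    refine (norm_inner_le_norm _ _).trans ?_
    rw [(orthonormal_hadFam hv).1, one_mul]
    refine (T.le_opNorm _).trans ?_
    rw [hv.1, mul_one]
  refine (Finset.sum_le_sum h2).trans ?_
  simp

theorem had_sum_eq {v : HI → H} (hv : Orthonormal ℂ v) (k : ℕ) {a : H →L[ℂ] H}
    (ha : ∀ p, a (v p) = hadFam v p) :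
    ∑ x, ∑ y, ((had x y : ℝ) : ℂ) * inner ℂ (v ⟨k, x⟩) (a (v ⟨k, y⟩)) =
      ((Real.sqrt (2 ^ k) * 2 ^ k : ℝ) : ℂ) := by
  have h3 : (0 : ℝ) < Real.sqrt (2 ^ k) := Real.sqrt_pos.2 (by positivity)
  have h4 : Real.sqrt (2 ^ k) * Real.sqrt (2 ^ k) = (2 : ℝ) ^ k :=
    Real.mul_self_sqrt (by positivity)
  have h1 : ∀ x y : Fin k → Bool, ((had x y : ℝ) : ℂ) * inner ℂ (v ⟨k, x⟩) (a (v ⟨k, y⟩)) =
      (((Real.sqrt (2 ^ k))⁻¹ : ℝ) : ℂ) := by
    intro x y
    rw [ha]
    unfold hadFam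
    rw [inner_smul_right, (orthonormal_level hv k).inner_right_fintype (fun x => ((had x y : ℝ) : ℂ)) x]
    simp only
    rw [← Complex.ofReal_mul, ← Complex.ofReal_mul]
    congr 1
    have := had_mul_self x y
    linear_combination (Real.sqrt (2 ^ k))⁻¹ * this
  simp only [h1, Finset.sum_const, Finset.card_univ, nsmul_eq_mul, Fintype.card_fun,
    Fintype.card_bool, Fintype.card_fin]
  push_cast
  have h5 : ((Real.sqrt (2 ^ k) : ℝ) : ℂ) ≠ 0 := by exact_mod_cast h3.ne'
  have h6 : ((Real.sqrt (2 ^ k) : ℝ) : ℂ) * ((Real.sqrt (2 ^ k) : ℝ) : ℂ) = 2 ^ k := by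
    exact_mod_cast h4
  rw [mul_comm (2 ^ k : ℂ) (((Real.sqrt (2 ^ k) : ℝ) : ℂ))⁻¹, ← h6]
  field_simp

end

end Pool.Agent.TwGrpd
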