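import Pool.Agent.TwGrpd.Norm
import Pool.Agent.TwGrpd.Hadamard

set_option autoImplicit false
set_option linter.unusedSectionVars false

open Topology Set

namespace Pool.Agent.TwGrpd

namespace Twist

variable {X G S : Type*} [TopologicalSpace X] [TopologicalSpace G] [TopologicalSpace S]
  {𝒢 : EtaleGroupoid X G} (T : Twist 𝒢 S)
  [T2Space S] [T2Space G] [LocallyCompactSpace G]
  {H : Type*} [NormedAddCommGroup H] [InnerProductSpace ℂ H] [CompleteSpace H]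
  (j : T.Cc →⋆ₙₐ[ℂ] (H →L[ℂ] H))

/-- The diagonal coefficient of the regular representation at a unit. -/
theorem mat_unit (f : T.Cc) (x : X) :
    T.mat (f : S → ℂ) (⟨𝒢.one x, 𝒢.s_one x⟩ : 𝒢.Fib x) ⟨𝒢.one x, 𝒢.s_one x⟩ =
      (f : S → ℂ) (T.grpd.one x) := by
  rw [mat, TopGroupoid.dv, T.grpd.mul_inv, r_lift, 𝒢.r_one]

theorem apply_one_le (f : T.Cc) (x : X) : ‖(f : S → ℂ) (T.grpd.one x)‖ ≤ ‖T.regRep x f‖ := by
  rw [← T.mat_unit f x, ← T.regOp_dl, ← inner_dl]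
  refine (norm_inner_le_norm _ _).trans ?_
  rw [norm_dl, one_mul]
  refine ((T.regOp f x).le_opNorm _).trans ?_
  rw [norm_dl, mul_one]
  exact le_rfl

theorem exists_vec (hreg : ∀ u f, ‖T.regRep u f‖ ≤ ‖j f‖) {U : Set X} (hU : IsOpen U)
    (hne : U.Nonempty) : ∃ (g : X → ℝ) (hg : IsCcR g) (ξ : H), (∀ x, |g x| ≤ 1) ∧
      (∀ x, g x ≠ 0 → x ∈ U) ∧ ‖ξ‖ = 1 ∧ j (T.dgR g hg) ξ = ξ := by
  have := 𝒢.t2Space_units
  have := 𝒢.locallyCompactSpace_units
  obtain ⟨x, hx⟩ := hne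
  obtain ⟨K, hK, hKU, hKc⟩ := local_compact_nhds (hU.mem_nhds hx)
  obtain ⟨g, hg1, hg2, hg3, hg4⟩ := exists_continuousMap_one_of_isCompact_subset_isOpen hKc hU hKU
  obtain ⟨h, hh1, hh2, hh3, hh4⟩ := exists_continuousMap_one_of_isCompact_subset_isOpen
    (isCompact_singleton (x := x)) (isOpen_interior (s := K))
    (singleton_subset_iff.2 (mem_interior_iff_mem_nhds.2 hK))
  have hg : IsCcR (g : X → ℝ) := ⟨g.continuous, hg2⟩
  have hh : IsCcR (h : X → ℝ) := ⟨h.continuous, hh2⟩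
  have hgh : ∀ y, g y * h y = h y := by
    intro y
    by_cases h0 : h y = 0
    · rw [h0, mul_zero]
    · have h1 : y ∈ K := interior_subset (hh3 (subset_tsupport _ h0))
      rw [hg1 h1]; simp
  have hmul : T.dgR g hg * T.dgR h hh = T.dgR h hh := by
    rw [dgR, dgR, dg_mul]
    exact T.dg_congr _ _ fun y => by rw [← Complex.ofReal_mul, hgh]
  have hjne : j (T.dgR h hh) ≠ 0 := by
    intro h0
    have h1 := T.apply_one_le (T.dgR h hh) x
    have h2 := hreg x (T.dgR h hh)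
    rw [h0, norm_zero] at h2
    have h3 := h1.trans h2
    rw [dgR, dg_apply, dgFun_one, hh1 (mem_singleton x)] at h3
    simp at h3
    linarith
  obtain ⟨ζ, hζ⟩ : ∃ ζ, j (T.dgR h hh) ζ ≠ 0 := by
    by_contra hcon
    push Not at hcon
    exact hjne (ContinuousLinearMap.ext hcon)
  refine ⟨g, hg, ((‖j (T.dgR h hh) ζ‖⁻¹ : ℝ) : ℂ) • j (T.dgR h hh) ζ, ?_, ?_, ?_, ?_⟩
  · intro y
    rw [abs_of_nonneg (hg4 y).1]; exact (hg4 y).2
  · intro y hy
    exact hg3 (subset_tsupport _ hy)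
  · rw [norm_smul, Complex.norm_real, norm_inv, norm_norm, inv_mul_cancel₀ (norm_ne_zero_iff.2 hζ)]
  · rw [map_smul, ← ContinuousLinearMap.mul_apply, ← map_mul, hmul]

theorem infinite_case [Infinite X] (hreg : ∀ u f, ‖T.regRep u f‖ ≤ ‖j f‖)
    (hd : DenseRange j) : False := by
  have := 𝒢.t2Space_units
  have := 𝒢.locallyCompactSpace_units
  obtain ⟨U, hUinf, hUo, hUd⟩ := exists_seq_infinite_isOpen_pairwise_disjoint X
  obtain ⟨e, he⟩ := exists_injective_nat HI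
  choose g hg v hg1 hgU hv1 hgv using fun p : HI =>
    T.exists_vec j hreg (hUo (e p)) (hUinf (e p)).nonempty
  have hg0 : ∀ p p' : HI, p ≠ p' → ∀ x, g p x * g p' x = 0 := by
    intro p p' hne x
    by_contra h0
    have h1 := hgU p x (left_ne_zero_of_mul h0)
    have h2 := hgU p' x (right_ne_zero_of_mul h0)
    exact (Set.disjoint_left.1 (hUd (he.ne hne))) h1 h2
  have hv : Orthonormal ℂ v := by
    refine ⟨hv1, fun p p' hne => ?_⟩
    show inner ℂ (v p) (v p') = 0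
    rw [← hgv p, ← hgv p', ← T.inner_dgR, ← ContinuousLinearMap.mul_apply, ← map_mul, dgR, dgR,
      dg_mul, T.dg_eq_zero _ fun x => ?_, map_zero]
    · simp
    · rw [← Complex.ofReal_mul, hg0 _ _ hne, Complex.ofReal_zero]
  obtain ⟨a, ha⟩ := exists_op_of_orthonormal hv (orthonormal_hadFam hv)
  obtain ⟨f, hf⟩ := Metric.denseRange_iff.1 hd a (1 / 2) (by norm_num)
  rw [dist_eq_norm] at hf
  obtain ⟨n, B, F, hB, hF, hsum⟩ := T.exists_decomp f.2
  have hsum' : ∑ l, F l = f := Subtype.ext (by rw [Submodule.coe_sum]; exact hsum)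
  have hnorm := fun l => T.normaliser_inequality j (F l) (hB l)
    (fun σ hσ => hF l σ (subset_tsupport _ hσ))
  choose C hC0 hC using hnorm
  have key : ∀ k : ℕ, Real.sqrt (2 ^ k) ≤ 2 * ∑ l, C l := by
    intro k
    have h1 : ‖∑ x, ∑ y, ((had x y : ℝ) : ℂ) * inner ℂ (v ⟨k, x⟩) (j f (v ⟨k, y⟩))‖ ≤
        (∑ l, C l) * 2 ^ k := by
      have h2 : ∑ x, ∑ y, ((had x y : ℝ) : ℂ) * inner ℂ (v ⟨k, x⟩) (j f (v ⟨k, y⟩)) =
          ∑ l, ∑ x, ∑ y, ((had x y : ℝ) : ℂ) * inner ℂ (v ⟨k, x⟩) (j (F l) (v ⟨k, y⟩)) := by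
        symm
        rw [Finset.sum_comm]
        refine Finset.sum_congr rfl fun x _ => ?_
        rw [Finset.sum_comm]
        refine Finset.sum_congr rfl fun y _ => ?_
        rw [← hsum', map_sum, ContinuousLinearMap.sum_apply, inner_sum, Finset.mul_sum]
      rw [h2, Finset.sum_mul]
      refine (norm_sum_le _ _).trans (Finset.sum_le_sum fun l _ => ?_)
      have h3 := hC l (Fin k → Bool) (fun x => g ⟨k, x⟩) (fun x => hg _) (fun x => hg1 _)
        (fun x y hxy => hg0 _ _ (by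
          intro h4
          apply hxy
          simpa using h4)) (fun x => v ⟨k, x⟩) (orthonormal_level hv k) (fun x => hgv _)
        (fun x y => ((had x y : ℝ) : ℂ)) (fun x y => by
          rw [Complex.norm_real]
          have := had_mul_self x y
          rw [Real.norm_eq_abs]
          have h5 : |had x y| ^ 2 = 1 := by rw [sq_abs, sq]; exact this
          nlinarith [abs_nonneg (had x y)])
      simpa using h3
    have h6 := had_sum_le hv k (a - j f)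
    have h7 := had_sum_eq hv k ha
    have h8 : ∑ x, ∑ y, ((had x y : ℝ) : ℂ) * inner ℂ (v ⟨k, x⟩) ((a - j f) (v ⟨k, y⟩)) =
        ∑ x, ∑ y, ((had x y : ℝ) : ℂ) * inner ℂ (v ⟨k, x⟩) (a (v ⟨k, y⟩)) -
        ∑ x, ∑ y, ((had x y : ℝ) : ℂ) * inner ℂ (v ⟨k, x⟩) (j f (v ⟨k, y⟩)) := by
      rw [← Finset.sum_sub_distrib]
      refine Finset.sum_congr rfl fun x _ => ?_
      rw [← Finset.sum_sub_distrib]
      refine Finset.sum_congr rfl fun y _ => ?_
      rw [ContinuousLinearMap.sub_apply, inner_sub_right, mul_sub]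
    have h9 : Real.sqrt (2 ^ k) * 2 ^ k ≤
        Real.sqrt (2 ^ k) * 2 ^ k * (1 / 2) + (∑ l, C l) * 2 ^ k := by
      have h10 : Real.sqrt (2 ^ k) * 2 ^ k = ‖((Real.sqrt (2 ^ k) * 2 ^ k : ℝ) : ℂ)‖ := by
        rw [Complex.norm_real, Real.norm_of_nonneg (by positivity)]
      have h11 : ((Real.sqrt (2 ^ k) * 2 ^ k : ℝ) : ℂ) =
        ∑ x, ∑ y, ((had x y : ℝ) : ℂ) * inner ℂ (v ⟨k, x⟩) ((a - j f) (v ⟨k, y⟩)) +
        ∑ x, ∑ y, ((had x y : ℝ) : ℂ) * inner ℂ (v ⟨k, x⟩) (j f (v ⟨k, y⟩)) := by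
        rw [h8, h7]; ring
      calc Real.sqrt (2 ^ k) * 2 ^ k = ‖((Real.sqrt (2 ^ k) * 2 ^ k : ℝ) : ℂ)‖ := h10
        _ ≤ _ := by rw [h11]; exact norm_add_le _ _
        _ ≤ Real.sqrt (2 ^ k) * 2 ^ k * ‖a - j f‖ + (∑ l, C l) * 2 ^ k := add_le_add h6 h1
        _ ≤ _ := by
          have : Real.sqrt (2 ^ k) * 2 ^ k * ‖a - j f‖ ≤ Real.sqrt (2 ^ k) * 2 ^ k * (1 / 2) :=
            mul_le_mul_of_nonneg_left hf.le (by positivity)
          linarith
    have h12 : (0 : ℝ) < 2 ^ k := by positivity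
    have h13 : Real.sqrt (2 ^ k) * 2 ^ k ≤ (2 * ∑ l, C l) * 2 ^ k := by linarith
    exact le_of_mul_le_mul_right h13 h12
  -- contradiction
  obtain ⟨k, hk⟩ := pow_unbounded_of_one_lt (2 * ∑ l, C l) (one_lt_two (α := ℝ))
  have h1 := key (2 * k)
  rw [pow_mul', Real.sqrt_sq (by positivity)] at h1
  linarith

end Twist

end Pool.Agent.TwGrpd
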