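import Mathlib

set_option autoImplicit false

open Topology Set

namespace Pool.Agent.TwGrpd

section MatrixOp

variable {I : Type*}

/-- `ℓ²(I)`. -/
noncomputable abbrev L2 (I : Type*) := lp (fun _ : I => ℂ) 2

theorem L2.sum_sq_le (ξ : L2 I) (s : Finset I) : ∑ i ∈ s, ‖ξ i‖ ^ 2 ≤ ‖ξ‖ ^ 2 := by
  have h := lp.sum_rpow_le_norm_rpow (p := 2) (by norm_num) ξ s
  simpa using h

/-- Finite part of the Schur test. -/
theorem schur_finite (M : I → I → ℂ) (C : ℝ) (hC : 0 ≤ C)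
    (hrowfin : ∀ a, {b | M a b ≠ 0}.Finite)
    (hrow : ∀ a, ∀ F : Finset I, ∑ b ∈ F, ‖M a b‖ ≤ C)
    (hcol : ∀ b, ∀ F : Finset I, ∑ a ∈ F, ‖M a b‖ ≤ C) (ξ : L2 I) (F : Finset I) :
    ∑ a ∈ F, ‖∑ᶠ b, M a b * ξ b‖ ^ 2 ≤ (C * ‖ξ‖) ^ 2 := by
  classical
  set R : Finset I := F.biUnion fun a => (hrowfin a).toFinset with hR
  have h1 : ∀ a ∈ F, ∑ᶠ b, M a b * ξ b = ∑ b ∈ R, M a b * ξ b := by
    intro a ha
    refine finsum_eq_sum_of_support_subset _ ?_
    intro b hb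
    rw [Function.mem_support] at hb
    simp only [hR, Finset.coe_biUnion, Set.mem_iUnion]
    refine ⟨a, ha, ?_⟩
    simp only [Finite.coe_toFinset]
    exact left_ne_zero_of_mul hb
  have h2 : ∀ a ∈ F, ‖∑ᶠ b, M a b * ξ b‖ ^ 2 ≤ C * ∑ b ∈ R, ‖M a b‖ * ‖ξ b‖ ^ 2 := by
    intro a ha
    rw [h1 a ha]
    calc ‖∑ b ∈ R, M a b * ξ b‖ ^ 2 ≤ (∑ b ∈ R, ‖M a b‖ * ‖ξ b‖) ^ 2 := by
          refine pow_le_pow_left₀ (norm_nonneg _) ((norm_sum_le _ _).trans (le_of_eq ?_)) 2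
          exact Finset.sum_congr rfl fun b _ => norm_mul _ _
      _ ≤ (∑ b ∈ R, ‖M a b‖) * ∑ b ∈ R, ‖M a b‖ * ‖ξ b‖ ^ 2 :=
          Finset.sum_sq_le_sum_mul_sum_of_sq_le_mul _ (fun _ _ => norm_nonneg _)
            (fun _ _ => by positivity) (fun _ _ => le_of_eq (by ring))
      _ ≤ C * ∑ b ∈ R, ‖M a b‖ * ‖ξ b‖ ^ 2 :=
          mul_le_mul_of_nonneg_right (hrow a R) (Finset.sum_nonneg fun _ _ => by positivity)
  calc ∑ a ∈ F, ‖∑ᶠ b, M a b * ξ b‖ ^ 2 ≤ ∑ a ∈ F, C * ∑ b ∈ R, ‖M a b‖ * ‖ξ b‖ ^ 2 :=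
        Finset.sum_le_sum h2
    _ = C * ∑ b ∈ R, (∑ a ∈ F, ‖M a b‖) * ‖ξ b‖ ^ 2 := by
        rw [← Finset.mul_sum, Finset.sum_comm]
        congr 1
        exact Finset.sum_congr rfl fun b _ => (Finset.sum_mul _ _ _).symm
    _ ≤ C * ∑ b ∈ R, C * ‖ξ b‖ ^ 2 := by
        refine mul_le_mul_of_nonneg_left (Finset.sum_le_sum fun b _ => ?_) hC
        exact mul_le_mul_of_nonneg_right (hcol b F) (by positivity)
    _ = C ^ 2 * ∑ b ∈ R, ‖ξ b‖ ^ 2 := by rw [← Finset.mul_sum]; ring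
    _ ≤ C ^ 2 * ‖ξ‖ ^ 2 := mul_le_mul_of_nonneg_left (L2.sum_sq_le ξ R) (by positivity)
    _ = (C * ‖ξ‖) ^ 2 := by ring

/-- Schur test: a matrix with finite rows and uniformly summable rows and columns is a bounded
operator on `ℓ²(I)`. -/
theorem exists_matrixOp (M : I → I → ℂ) (C : ℝ) (hC : 0 ≤ C)
    (hrowfin : ∀ a, {b | M a b ≠ 0}.Finite)
    (hrow : ∀ a, ∀ F : Finset I, ∑ b ∈ F, ‖M a b‖ ≤ C)
    (hcol : ∀ b, ∀ F : Finset I, ∑ a ∈ F, ‖M a b‖ ≤ C) :
    ∃ A : L2 I →L[ℂ] L2 I, ∀ ξ a, (A ξ) a = ∑ᶠ b, M a b * ξ b := by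
  classical
  have hmem : ∀ ξ : L2 I, Memℓp (fun a => ∑ᶠ b, M a b * ξ b) 2 := by
    intro ξ
    refine memℓp_gen' (C := (C * ‖ξ‖) ^ 2) fun s => ?_
    have h := schur_finite M C hC hrowfin hrow hcol ξ s
    simpa using h
  let L : L2 I →ₗ[ℂ] L2 I :=
    { toFun := fun ξ => ⟨fun a => ∑ᶠ b, M a b * ξ b, hmem ξ⟩
      map_add' := by
        intro ξ η
        ext a
        show ∑ᶠ b, M a b * (ξ + η : L2 I) b = ∑ᶠ b, M a b * ξ b + ∑ᶠ b, M a b * η b
        rw [← finsum_add_distrib]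
        · refine finsum_congr fun b => ?_
          rw [lp.coeFn_add, Pi.add_apply]; ring
        · exact (hrowfin a).subset fun b hb => left_ne_zero_of_mul hb
        · exact (hrowfin a).subset fun b hb => left_ne_zero_of_mul hb
      map_smul' := by
        intro c ξ
        ext a
        show ∑ᶠ b, M a b * (c • ξ : L2 I) b = c • ∑ᶠ b, M a b * ξ b
        rw [smul_finsum]
        refine finsum_congr fun b => ?_
        rw [lp.coeFn_smul, Pi.smul_apply, smul_eq_mul, smul_eq_mul]; ring }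
  refine ⟨L.mkContinuous C fun ξ => ?_, fun ξ a => rfl⟩
  refine lp.norm_le_of_forall_sum_le (by norm_num) (by positivity) fun s => ?_
  have h := schur_finite M C hC hrowfin hrow hcol ξ s
  have h2 : ∀ a, (L ξ) a = ∑ᶠ b, M a b * ξ b := fun a => rfl
  simp only [h2]
  simpa using h

open Classical in
/-- The basis vectors of `ℓ²(I)`. -/
noncomputable def dl (i : I) : L2 I := lp.single 2 i 1

open Classical in
theorem dl_apply (i j : I) : (dl i : L2 I) j = if j = i then 1 else 0 := by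
  rw [dl, lp.single_apply, Pi.single_apply]

theorem norm_dl (i : I) : ‖(dl i : L2 I)‖ = 1 := by
  classical
  rw [dl, lp.norm_single (by norm_num)]; simp

/-- Bounded operators on `ℓ²(I)` which agree on basis vectors are equal. -/
theorem ext_dl {A B : L2 I →L[ℂ] L2 I} (h : ∀ i, A (dl i) = B (dl i)) : A = B := by
  classical
  ext1 ξ
  have hs : HasSum (fun i => lp.single 2 i (ξ i)) ξ := lp.hasSum_single (by norm_num) ξ
  have h1 := A.hasSum hs
  have h2 := B.hasSum hs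
  have h3 : (fun i => A (lp.single 2 i (ξ i))) = fun i => B (lp.single 2 i (ξ i)) := by
    ext1 i
    have : (lp.single 2 i (ξ i) : L2 I) = (ξ i) • dl i := by
      rw [dl, ← lp.single_smul]
      simp only [smul_eq_mul, mul_one]
    rw [this, map_smul, map_smul, h i]
  rw [h3] at h1
  exact h1.unique h2

theorem inner_dl (i : I) (ξ : L2 I) : inner ℂ (dl i) ξ = ξ i := by
  classical
  rw [dl, lp.inner_single_left]; simp

/-- If the support of `w` is covered by `n` subsingletons, finite sums of `‖w‖` are bounded. -/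
theorem sum_le_of_cover (w : I → ℂ) (M : ℝ) (hM0 : 0 ≤ M) (hM : ∀ b, ‖w b‖ ≤ M) {n : ℕ}
    (P : Fin n → Set I) (hP : ∀ l, (P l).Subsingleton) (hw : ∀ b, w b ≠ 0 → ∃ l, b ∈ P l)
    (F : Finset I) : ∑ b ∈ F, ‖w b‖ ≤ n * M := by
  classical
  have h1 : ∀ b ∈ F, ‖w b‖ ≤ ∑ l, if b ∈ P l then M else 0 := by
    intro b _
    by_cases h0 : w b = 0
    · rw [h0, norm_zero]
      exact Finset.sum_nonneg fun l _ => by split_ifs <;> simp [hM0]
    · obtain ⟨l, hl⟩ := hw b h0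
      refine (hM b).trans ?_
      have := Finset.single_le_sum (f := fun l => if b ∈ P l then M else 0)
        (fun l _ => by split_ifs <;> simp [hM0]) (Finset.mem_univ l)
      simpa only [hl, if_true] using this
  refine (Finset.sum_le_sum h1).trans ?_
  rw [Finset.sum_comm]
  have h2 : ∀ l ∈ (Finset.univ : Finset (Fin n)), ∑ b ∈ F, (if b ∈ P l then M else 0) ≤ M := by
    intro l _
    rw [← Finset.sum_filter, Finset.sum_const, nsmul_eq_mul]
    have h3 : (F.filter fun b => b ∈ P l).card ≤ 1 := by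
      rw [Finset.card_le_one]
      intro a ha b hb
      exact hP l (Finset.mem_filter.1 ha).2 (Finset.mem_filter.1 hb).2
    have h4 : (((F.filter fun b => b ∈ P l).card : ℕ) : ℝ) ≤ 1 := by exact_mod_cast h3
    nlinarith
  refine (Finset.sum_le_sum h2).trans ?_
  simp

end MatrixOp

end Pool.Agent.TwGrpd
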