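import Pool.Agent.TwGrpd.Diag

set_option autoImplicit false
set_option linter.unusedSectionVars false

open Topology Set

namespace Pool.Agent.TwGrpd

namespace Twist

variable {X G S : Type*} [TopologicalSpace X] [TopologicalSpace G] [TopologicalSpace S]
  {𝒢 : EtaleGroupoid X G} (T : Twist 𝒢 S)
  [T2Space S] [T2Space G] [LocallyCompactSpace G]

theorem dg_comb {a b e : X → ℂ} (ha : IsCc a) (hb : IsCc b) (he : IsCc e) (c : ℂ)
    (h : ∀ x, a x + b x = c * e x) : T.dg a ha + T.dg b hb = c • T.dg e he := by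
  apply Subtype.ext
  ext σ
  show T.dgFun a σ + T.dgFun b σ = c * T.dgFun e σ
  by_cases hσ : σ ∈ range T.iMap
  · obtain ⟨⟨z, x⟩, rfl⟩ := hσ
    show T.dgFun a (T.i z x) + T.dgFun b (T.i z x) = c * T.dgFun e (T.i z x)
    rw [dgFun_i, dgFun_i, dgFun_i, ← mul_add, h]
    ring
  · rw [T.dgFun_of_notMem _ hσ, T.dgFun_of_notMem _ hσ, T.dgFun_of_notMem _ hσ]; simp

theorem dg_congr {a b : X → ℂ} (ha : IsCc a) (hb : IsCc b) (h : ∀ x, a x = b x) :
    T.dg a ha = T.dg b hb := by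
  have : a = b := funext h
  subst this
  rfl

theorem dg_eq_zero {a : X → ℂ} (ha : IsCc a) (h : ∀ x, a x = 0) : T.dg a ha = 0 := by
  apply Subtype.ext
  ext σ
  rw [dg_apply]
  by_contra hne
  obtain ⟨z, x, -, hx⟩ := T.dgFun_ne_zero (σ := σ) hne
  exact hx (h x)

theorem IsCc.conj {X : Type*} [TopologicalSpace X] {h : X → ℂ} (hh : IsCc h) :
    IsCc (fun x => (starRingEnd ℂ) (h x)) :=
  ⟨Complex.continuous_conj.comp hh.1, hh.2.comp_left (g := (starRingEnd ℂ)) (map_zero _)⟩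

/-- Real-valued version: continuous compactly supported real function. -/
def IsCcR {X : Type*} [TopologicalSpace X] (h : X → ℝ) : Prop :=
  Continuous h ∧ HasCompactSupport h

theorem IsCcR.coe {X : Type*} [TopologicalSpace X] {h : X → ℝ} (hh : IsCcR h) :
    IsCc (fun x => (h x : ℂ)) :=
  ⟨Complex.continuous_ofReal.comp hh.1, hh.2.comp_left (g := ((↑) : ℝ → ℂ)) Complex.ofReal_zero⟩

/-- Element of `C_c(G, Σ)` given by a real function. -/
noncomputable def dgR (h : X → ℝ) (hh : IsCcR h) : T.Cc := T.dg (fun x => (h x : ℂ)) hh.coe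

theorem star_dgR (h : X → ℝ) (hh : IsCcR h) : star (T.dgR h hh) = T.dgR h hh := by
  rw [dgR, T.star_dg _ hh.coe hh.coe.conj]
  exact T.dg_congr _ _ fun x => Complex.conj_ofReal _

variable {H : Type*} [NormedAddCommGroup H] [InnerProductSpace ℂ H] [CompleteSpace H]
  (j : T.Cc →⋆ₙₐ[ℂ] (H →L[ℂ] H))

theorem inner_star_mul (f : T.Cc) (ξ η : H) :
    inner ℂ ξ (j (star f * f) η) = inner ℂ (j f ξ) (j f η) := by
  rw [map_mul, map_star, ContinuousLinearMap.mul_apply, ContinuousLinearMap.star_eq_adjoint,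
    ContinuousLinearMap.adjoint_inner_right]

theorem inner_dgR (h : X → ℝ) (hh : IsCcR h) (ξ η : H) :
    inner ℂ ξ (j (T.dgR h hh) η) = inner ℂ (j (T.dgR h hh) ξ) η := by
  conv_lhs => rw [← T.star_dgR h hh]
  rw [map_star, ContinuousLinearMap.star_eq_adjoint, ContinuousLinearMap.adjoint_inner_right]

/-- Positivity estimate. -/
theorem norm_dg_apply_le (h : X → ℂ) (hh : IsCc h) (k : X → ℝ) (hk : IsCcR k) (M : ℝ) (hM : 0 ≤ M)
    (hM' : ∀ x, ‖h x‖ ≤ M) (h1 : ∀ x, h x ≠ 0 → k x = 1) (ξ : H) :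
    ‖j (T.dg h hh) ξ‖ ≤ M * ‖j (T.dgR k hk) ξ‖ := by
  have hnn : ∀ x, 0 ≤ M ^ 2 * k x ^ 2 - ‖h x‖ ^ 2 := by
    intro x
    by_cases h0 : h x = 0
    · rw [h0]; simp only [norm_zero, ne_eq, OfNat.ofNat_ne_zero, not_false_eq_true, zero_pow,
        sub_zero]; positivity
    · rw [h1 x h0]
      have := pow_le_pow_left₀ (norm_nonneg _) (hM' x) 2
      linarith
  set g : X → ℝ := fun x => Real.sqrt (M ^ 2 * k x ^ 2 - ‖h x‖ ^ 2) with hg
  have hgc : IsCcR g := by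
    refine ⟨Real.continuous_sqrt.comp (((continuous_const).mul (hk.1.pow 2)).sub
      ((continuous_norm.comp hh.1).pow 2)), ?_⟩
    refine HasCompactSupport.mono' (f := k) hk.2 ?_
    intro x hx
    apply subset_tsupport
    intro hkx
    apply hx
    have h0 : h x = 0 := by
      by_contra h0
      rw [h1 x h0] at hkx
      exact one_ne_zero hkx
    show Real.sqrt (M ^ 2 * k x ^ 2 - ‖h x‖ ^ 2) = 0
    rw [hkx, h0]; simp
  have key : star (T.dgR g hgc) * T.dgR g hgc + star (T.dg h hh) * T.dg h hh =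
      ((M ^ 2 : ℝ) : ℂ) • (star (T.dgR k hk) * T.dgR k hk) := by
    rw [T.star_dgR, T.star_dgR, T.star_dg h hh hh.conj, dgR, dgR, dg_mul, dg_mul, dg_mul]
    apply T.dg_comb
    intro x
    rw [← Complex.ofReal_mul, ← Complex.ofReal_mul, ← Complex.ofReal_mul]
    rw [mul_comm ((starRingEnd ℂ) (h x)), Complex.mul_conj, Complex.normSq_eq_norm_sq,
      ← Complex.ofReal_add]
    congr 1
    show Real.sqrt _ * Real.sqrt _ + _ = _
    rw [Real.mul_self_sqrt (hnn x)]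
    ring
  have h2 : inner ℂ ξ (j (star (T.dgR g hgc) * T.dgR g hgc + star (T.dg h hh) * T.dg h hh) ξ) =
      inner ℂ ξ (j (((M ^ 2 : ℝ) : ℂ) • (star (T.dgR k hk) * T.dgR k hk)) ξ) := by rw [key]
  rw [map_add, map_smul, ContinuousLinearMap.add_apply, ContinuousLinearMap.smul_apply,
    inner_add_right, inner_smul_right, inner_star_mul, inner_star_mul, inner_star_mul,
    inner_self_eq_norm_sq_to_K, inner_self_eq_norm_sq_to_K, inner_self_eq_norm_sq_to_K] at h2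
  have h3 : ‖j (T.dgR g hgc) ξ‖ ^ 2 + ‖j (T.dg h hh) ξ‖ ^ 2 = M ^ 2 * ‖j (T.dgR k hk) ξ‖ ^ 2 := by
    have h4 : (((‖j (T.dgR g hgc) ξ‖ ^ 2 + ‖j (T.dg h hh) ξ‖ ^ 2 : ℝ)) : ℂ) =
        ((M ^ 2 * ‖j (T.dgR k hk) ξ‖ ^ 2 : ℝ) : ℂ) := by
      push_cast
      simpa using h2
    exact_mod_cast h4
  have h5 : ‖j (T.dg h hh) ξ‖ ^ 2 ≤ (M * ‖j (T.dgR k hk) ξ‖) ^ 2 := by
    rw [mul_pow, ← h3]
    have : 0 ≤ ‖j (T.dgR g hgc) ξ‖ ^ 2 := by positivity
    linarith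
  exact abs_le_of_sq_le_sq' h5 (by positivity) |>.2

theorem norm_dg_le (h : X → ℂ) (hh : IsCc h) (k : X → ℝ) (hk : IsCcR k) (M : ℝ) (hM : 0 ≤ M)
    (hM' : ∀ x, ‖h x‖ ≤ M) (h1 : ∀ x, h x ≠ 0 → k x = 1) :
    ‖j (T.dg h hh)‖ ≤ M * ‖j (T.dgR k hk)‖ := by
  refine ContinuousLinearMap.opNorm_le_bound _ (by positivity) fun ξ => ?_
  refine (T.norm_dg_apply_le j h hh k hk M hM hM' h1 ξ).trans ?_
  rw [mul_assoc]
  exact mul_le_mul_of_nonneg_left (ContinuousLinearMap.le_opNorm _ _) hM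

/-- Norm estimate for elements supported over a bisection. -/
theorem norm_sq_le_of_bisection (m : T.Cc) {B : Set G} (hB : 𝒢.IsBisection B)
    (hmB : ∀ σ, (m : S → ℂ) σ ≠ 0 → T.q σ ∈ B) (M : ℝ)
    (hM : ∀ σ, ‖(m : S → ℂ) σ‖ ≤ M) (k : X → ℝ) (hk : IsCcR k)
    (hk1 : ∀ σ, (m : S → ℂ) σ ≠ 0 → k (T.grpd.s σ) = 1) :
    ‖j m‖ ^ 2 ≤ M ^ 2 * ‖j (T.dgR k hk)‖ := by
  -- decomposition of non-zero values of `m^* * m`
  have hne : ∀ σ, ((star m * m : T.Cc) : S → ℂ) σ ≠ 0 → ∃ a b : S, (m : S → ℂ) (T.grpd.inv a) ≠ 0 ∧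
      (m : S → ℂ) b ≠ 0 ∧ T.grpd.s a = T.grpd.r b ∧ σ = T.grpd.mul a b ∧
      𝒢.inv (T.q a) = T.q b := by
    intro σ hσ
    obtain ⟨a, b, ha, hb, hab, rfl⟩ := T.conv_ne_zero hσ
    have ha' : (m : S → ℂ) (T.grpd.inv a) ≠ 0 := by
      intro h0
      apply ha
      show (starRingEnd ℂ) ((m : S → ℂ) (T.grpd.inv a)) = 0
      rw [h0, map_zero]
    refine ⟨a, b, ha', hb, hab, rfl, ?_⟩
    have h1 := hmB _ ha'
    have h2 := hmB _ hb
    rw [T.q_inv] at h1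
    exact hB.injOn_r h1 h2 (by rw [𝒢.r_inv, T.s_q, T.r_q, hab])
  obtain ⟨hh, heq⟩ := T.eq_dg (F := star m * m) (by
    intro σ hσ
    obtain ⟨a, b, ha, hb, hab, rfl, hq⟩ := hne σ hσ
    refine ⟨𝒢.s (T.q b), ?_⟩
    rw [T.q_mul _ _ hab, ← hq, 𝒢.s_inv]
    have h3 := 𝒢.mul_inv (T.q a)
    rw [h3])
  have hMx : ∀ x, ‖((star m * m : T.Cc) : S → ℂ) (T.grpd.one x)‖ ≤ M ^ 2 := by
    intro x
    by_cases h0 : ((star m * m : T.Cc) : S → ℂ) (T.grpd.one x) = 0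
    · rw [h0, norm_zero]; positivity
    · obtain ⟨a, b, ha, hb, hab, hσ, hq⟩ := hne _ h0
      have hra : T.grpd.r a = x := by
        rw [← T.grpd.r_mul _ _ hab, ← hσ, T.grpd.r_one]
      have h4 : ((star m * m : T.Cc) : S → ℂ) (T.grpd.one x) =
          T.invol m a * (m : S → ℂ) (T.grpd.mul (T.grpd.inv a) (T.grpd.one x)) := by
        rw [coe_mul]
        refine T.conv_eq_of_unique (star m).2 m.2 (by rw [hra, T.grpd.r_one]) ?_
        intro α hα hne'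
        have h5 : (m : S → ℂ) (T.grpd.inv (T.lift α)) ≠ 0 := by
          intro h0
          apply hne'
          show (starRingEnd ℂ) ((m : S → ℂ) (T.grpd.inv (T.lift α))) = 0
          rw [h0, map_zero]
        have h6 := hmB _ h5
        have h7 := hmB _ ha
        have h8 : T.q (T.grpd.inv (T.lift α)) = T.q (T.grpd.inv a) := by
          refine hB.injOn_s h6 h7 ?_
          rw [T.s_q, T.s_q, T.grpd.s_inv, T.grpd.s_inv, hra, r_lift, hα, T.grpd.r_one]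
        rw [T.q_inv, T.q_inv, q_lift] at h8
        rw [← 𝒢.inv_inv α, h8, 𝒢.inv_inv]
      rw [h4, norm_mul, sq]
      have h9 : ‖T.invol (m : S → ℂ) a‖ ≤ M := by
        show ‖(starRingEnd ℂ) ((m : S → ℂ) (T.grpd.inv a))‖ ≤ M
        rw [RCLike.norm_conj]; exact hM _
      exact mul_le_mul h9 (hM _) (norm_nonneg _) ((norm_nonneg _).trans h9)
  have hkx : ∀ x, ((star m * m : T.Cc) : S → ℂ) (T.grpd.one x) ≠ 0 → k x = 1 := by
    intro x h0
    obtain ⟨a, b, ha, hb, hab, hσ, hq⟩ := hne _ h0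
    have hsb : T.grpd.s b = x := by
      rw [← T.grpd.s_mul _ _ hab, ← hσ, T.grpd.s_one]
    rw [← hsb]; exact hk1 b hb
  have h10 := T.norm_dg_le j _ hh k hk (M ^ 2) (by positivity) hMx hkx
  rw [← heq] at h10
  have h11 : ‖j (star m * m)‖ = ‖j m‖ ^ 2 := by
    rw [map_mul, map_star, CStarRing.norm_star_mul_self, sq]
  rw [← h11]; exact h10

omit [T2Space S] [T2Space G] [LocallyCompactSpace G] in
theorem norm_sum_le_one {I : Type*} [Fintype I] {c a : I → ℂ} (hc : ∀ i, ‖c i‖ ≤ 1)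
    (ha : ∀ i, ‖a i‖ ≤ 1) (h0 : ∀ i i', i ≠ i' → a i * a i' = 0) : ‖∑ i, c i * a i‖ ≤ 1 := by
  classical
  by_cases h : ∃ i, a i ≠ 0
  · obtain ⟨i, hi⟩ := h
    rw [Finset.sum_eq_single i]
    · rw [norm_mul]
      exact mul_le_one₀ (hc i) (norm_nonneg _) (ha i)
    · intro b _ hb
      have := h0 i b (Ne.symm hb)
      rw [(mul_eq_zero.1 this).resolve_left hi, mul_zero]
    · intro h; exact absurd (Finset.mem_univ _) h
  · push Not at h
    simp [h]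

/-- The normaliser inequality. -/
theorem normaliser_inequality (n : T.Cc) {B : Set G} (hB : 𝒢.IsBisection B)
    (hnB : ∀ σ, (n : S → ℂ) σ ≠ 0 → T.q σ ∈ B) :
    ∃ C : ℝ, 0 ≤ C ∧ ∀ (I : Type) [Fintype I] (g : I → X → ℝ) (hg : ∀ i, IsCcR (g i))
      (_ : ∀ i x, |g i x| ≤ 1) (_ : ∀ i i', i ≠ i' → ∀ x, g i x * g i' x = 0) (ξ : I → H)
      (_ : Orthonormal ℂ ξ) (_ : ∀ i, j (T.dgR (g i) (hg i)) (ξ i) = ξ i) (c : I → I → ℂ)
      (_ : ∀ i i', ‖c i i'‖ ≤ 1),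
      ‖∑ i, ∑ i', c i i' * inner ℂ (ξ i) (j n (ξ i'))‖ ≤ C * Fintype.card I := by
  have := 𝒢.t2Space_units
  have := 𝒢.locallyCompactSpace_units
  obtain ⟨M, hM⟩ := (Cc.compact T n.2).exists_bound_of_continuous (Cc.continuous T n.2)
  have hK : IsCompact (T.grpd.s '' tsupport (n : S → ℂ)) :=
    (Cc.compact T n.2).isCompact.image T.grpd.continuous_s
  obtain ⟨k, hk1, hk2, -, -⟩ := exists_continuousMap_one_of_isCompact_subset_isOpen hK
    isOpen_univ (subset_univ _)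
  have hk : IsCcR (k : X → ℝ) := ⟨k.continuous, hk2⟩
  refine ⟨Real.sqrt (M ^ 2 * ‖j (T.dgR k hk)‖), Real.sqrt_nonneg _, ?_⟩
  intro I _ g hg hg1 hg0 ξ hξ hgξ c hc
  classical
  set m : T.Cc := ∑ i, ∑ i', c i i' • (T.dgR (g i) (hg i) * n * T.dgR (g i') (hg i')) with hm
  have hmσ : ∀ σ, (m : S → ℂ) σ =
      (∑ i, (∑ i', c i i' * ((g i' (T.grpd.s σ) : ℝ) : ℂ)) * ((g i (T.grpd.r σ) : ℝ) : ℂ)) *
        (n : S → ℂ) σ := by
    intro σ
    rw [hm, Submodule.coe_sum, Finset.sum_apply, Finset.sum_mul]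
    refine Finset.sum_congr rfl fun i _ => ?_
    rw [Submodule.coe_sum, Finset.sum_apply, Finset.sum_mul, Finset.sum_mul]
    refine Finset.sum_congr rfl fun i' _ => ?_
    show c i i' * ((T.dgR (g i) (hg i) * n * T.dgR (g i') (hg i') : T.Cc) : S → ℂ) σ = _
    rw [dgR, dgR, conv_dg_right, conv_dg_left]
    ring
  have hle : ∀ σ, ‖(m : S → ℂ) σ‖ ≤ ‖(n : S → ℂ) σ‖ := by
    intro σ
    rw [hmσ, norm_mul]
    have h1 : ‖∑ i, (∑ i', c i i' * ((g i' (T.grpd.s σ) : ℝ) : ℂ)) *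
        ((g i (T.grpd.r σ) : ℝ) : ℂ)‖ ≤ 1 := by
      apply norm_sum_le_one
      · intro i
        apply norm_sum_le_one
        · exact hc i
        · intro i'; rw [Complex.norm_real]; exact hg1 _ _
        · intro i1 i2 h12
          rw [← Complex.ofReal_mul, hg0 _ _ h12, Complex.ofReal_zero]
      · intro i'; rw [Complex.norm_real]; exact hg1 _ _
      · intro i1 i2 h12
        rw [← Complex.ofReal_mul, hg0 _ _ h12, Complex.ofReal_zero]
    exact mul_le_of_le_one_left (norm_nonneg _) h1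
  have hne : ∀ σ, (m : S → ℂ) σ ≠ 0 → (n : S → ℂ) σ ≠ 0 := by
    intro σ hσ h0
    have := hle σ
    rw [h0, norm_zero, norm_le_zero_iff] at this
    exact hσ this
  have hjm := T.norm_sq_le_of_bisection j m hB (fun σ hσ => hnB σ (hne σ hσ)) M
    (fun σ => (hle σ).trans (hM σ)) k hk
    (fun σ hσ => hk1 ⟨σ, subset_tsupport _ (hne σ hσ), rfl⟩)
  have hjm' : ‖j m‖ ≤ Real.sqrt (M ^ 2 * ‖j (T.dgR k hk)‖) := Real.le_sqrt_of_sq_le hjm
  -- the vector `Ξ = ∑ ξ i`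
  have hz : ∀ i i', i ≠ i' → j (T.dgR (g i) (hg i)) (ξ i') = 0 := by
    intro i i' hne'
    rw [← hgξ i', ← ContinuousLinearMap.mul_apply, ← map_mul, dgR, dgR, dg_mul,
      T.dg_eq_zero _ fun x => ?_, map_zero]
    · rfl
    · rw [← Complex.ofReal_mul, hg0 _ _ hne', Complex.ofReal_zero]
  have hΞ : ∀ i, j (T.dgR (g i) (hg i)) (∑ l, ξ l) = ξ i := by
    intro i
    rw [map_sum, Finset.sum_eq_single i]
    · exact hgξ i
    · intro b _ hb; exact hz i b (Ne.symm hb)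
    · intro h; exact absurd (Finset.mem_univ _) h
  have hval : inner ℂ (∑ l, ξ l) (j m (∑ l, ξ l)) =
      ∑ i, ∑ i', c i i' * inner ℂ (ξ i) (j n (ξ i')) := by
    rw [hm, map_sum j, ContinuousLinearMap.sum_apply, inner_sum]
    refine Finset.sum_congr rfl fun i _ => ?_
    rw [map_sum j, ContinuousLinearMap.sum_apply, inner_sum]
    refine Finset.sum_congr rfl fun i' _ => ?_
    rw [map_smul, ContinuousLinearMap.smul_apply, inner_smul_right, map_mul, map_mul,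
      ContinuousLinearMap.mul_apply, ContinuousLinearMap.mul_apply, hΞ, inner_dgR, hΞ]
  have hnorm : ‖∑ l, ξ l‖ ^ 2 = Fintype.card I := by
    have h1 := hξ.inner_sum (fun _ => (1 : ℂ)) (fun _ => (1 : ℂ)) Finset.univ
    simp only [one_smul] at h1
    rw [inner_self_eq_norm_sq_to_K] at h1
    simp only [map_one, mul_one, Finset.sum_const, Finset.card_univ, nsmul_eq_mul] at h1
    have h2 : ((‖∑ l, ξ l‖ ^ 2 : ℝ) : ℂ) = ((Fintype.card I : ℝ) : ℂ) := by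
      push_cast
      simpa using h1
    exact Complex.ofReal_injective h2
  rw [← hval]
  refine (norm_inner_le_norm _ _).trans ?_
  calc ‖∑ l, ξ l‖ * ‖j m (∑ l, ξ l)‖ ≤ ‖∑ l, ξ l‖ * (‖j m‖ * ‖∑ l, ξ l‖) :=
        mul_le_mul_of_nonneg_left (ContinuousLinearMap.le_opNorm _ _) (norm_nonneg _)
    _ = ‖j m‖ * ‖∑ l, ξ l‖ ^ 2 := by ring
    _ ≤ _ := by rw [hnorm]; exact mul_le_mul_of_nonneg_right hjm' (by positivity)

end Twist

end Pool.Agent.TwGrpd
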