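import Pool.Agent.TwGrpd.Sections
import Pool.Agent.TwGrpd.MatrixOp

set_option autoImplicit false

open Topology Set

namespace Pool.Agent.TwGrpd

namespace TopGroupoid

variable {X G : Type*} [TopologicalSpace X] [TopologicalSpace G] (𝒢 : TopGroupoid X G)

/-- `a b⁻¹` for `s a = s b`. -/
def dv (a b : G) : G := 𝒢.mul a (𝒢.inv b)

theorem r_dv {a b : G} (h : 𝒢.s a = 𝒢.s b) : 𝒢.r (𝒢.dv a b) = 𝒢.r a :=
  𝒢.r_mul _ _ (by rw [𝒢.r_inv, h])

theorem s_dv {a b : G} (h : 𝒢.s a = 𝒢.s b) : 𝒢.s (𝒢.dv a b) = 𝒢.r b := by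
  rw [dv, 𝒢.s_mul _ _ (by rw [𝒢.r_inv, h]), 𝒢.s_inv]

theorem inv_dv {a b : G} (h : 𝒢.s a = 𝒢.s b) : 𝒢.inv (𝒢.dv a b) = 𝒢.dv b a := by
  rw [dv, 𝒢.inv_mul_rev (by rw [𝒢.r_inv, h]), 𝒢.inv_inv, dv]

theorem dv_mul_dv {a b c : G} (h : 𝒢.s a = 𝒢.s b) (h' : 𝒢.s b = 𝒢.s c) :
    𝒢.mul (𝒢.dv a b) (𝒢.dv b c) = 𝒢.dv a c := by
  have h1 : 𝒢.s b = 𝒢.r (𝒢.inv c) := by rw [𝒢.r_inv, h']
  rw [show 𝒢.dv b c = 𝒢.mul b (𝒢.inv c) from rfl, ← 𝒢.assoc _ _ _ (𝒢.s_dv h) h1, dv,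
    𝒢.inv_mul_cancel_right h, dv]

theorem dv_injective_right {a b c : G} (h : 𝒢.s a = 𝒢.s b) (h' : 𝒢.s a = 𝒢.s c)
    (hd : 𝒢.dv a b = 𝒢.dv a c) : b = c := by
  have h1 : 𝒢.inv b = 𝒢.inv c :=
    𝒢.mul_left_cancel (by rw [𝒢.r_inv, h]) (by rw [𝒢.r_inv, h']) hd
  rw [← 𝒢.inv_inv b, h1, 𝒢.inv_inv]

theorem dv_injective_left {a b c : G} (h : 𝒢.s a = 𝒢.s c) (h' : 𝒢.s b = 𝒢.s c)
    (hd : 𝒢.dv a c = 𝒢.dv b c) : a = b :=
  𝒢.mul_right_cancel (by rw [𝒢.r_inv, h]) (by rw [𝒢.r_inv, h']) hd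

/-- Arrows with a given source. -/
abbrev Fib (u : X) : Type _ := {a : G // 𝒢.s a = u}

end TopGroupoid

namespace Twist

variable {X G S : Type*} [TopologicalSpace X] [TopologicalSpace G] [TopologicalSpace S]
  {𝒢 : EtaleGroupoid X G} (T : Twist 𝒢 S)

theorem q_dv {a b : S} (h : T.grpd.s a = T.grpd.s b) : T.q (T.grpd.dv a b) = 𝒢.dv (T.q a) (T.q b) := by
  rw [TopGroupoid.dv, T.q_mul _ _ (by rw [T.grpd.r_inv, h]), T.q_inv, TopGroupoid.dv]

theorem s_lift_eq {u : X} (α β : 𝒢.Fib u) : T.grpd.s (T.lift α.1) = T.grpd.s (T.lift β.1) := by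
  rw [s_lift, s_lift, α.2, β.2]

/-- The matrix of `f` acting on `ℓ²(G_u)`. -/
noncomputable def mat (f : S → ℂ) {u : X} (α β : 𝒢.Fib u) : ℂ :=
  f (T.grpd.dv (T.lift α.1) (T.lift β.1))

theorem q_dv_lift {u : X} (α β : 𝒢.Fib u) :
    T.q (T.grpd.dv (T.lift α.1) (T.lift β.1)) = 𝒢.dv α.1 β.1 := by
  rw [T.q_dv (T.s_lift_eq α β), q_lift, q_lift]

theorem mat_row_finite {f : S → ℂ} (hf : f ∈ T.Cc) {u : X} (α : 𝒢.Fib u) :
    {β : 𝒢.Fib u | T.mat f α β ≠ 0}.Finite := by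
  refine Set.Finite.of_injOn (f := fun β : 𝒢.Fib u => 𝒢.dv α.1 β.1)
    (t := {γ : G | 𝒢.r γ = 𝒢.r α.1 ∧ f (T.lift γ) ≠ 0}) ?_ ?_ (T.finite_fiber_r hf _)
  · intro β hβ
    refine ⟨𝒢.r_dv (by rw [α.2, β.2]), ?_⟩
    rw [T.ne_zero_iff_of_q_eq hf (τ := T.grpd.dv (T.lift α.1) (T.lift β.1))]
    · exact hβ
    · rw [q_lift, T.q_dv_lift]
  · intro β _ γ _ h
    exact Subtype.ext (𝒢.dv_injective_right (by rw [α.2, β.2]) (by rw [α.2, γ.2]) h)

theorem mat_bound {f : S → ℂ} (hf : f ∈ T.Cc) : ∃ C : ℝ, 0 ≤ C ∧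
    (∀ (u : X) (α : 𝒢.Fib u) (F : Finset (𝒢.Fib u)), ∑ β ∈ F, ‖T.mat f α β‖ ≤ C) ∧
    (∀ (u : X) (β : 𝒢.Fib u) (F : Finset (𝒢.Fib u)), ∑ α ∈ F, ‖T.mat f α β‖ ≤ C) := by
  obtain ⟨M, hM⟩ := (Cc.compact T hf).exists_bound_of_continuous (Cc.continuous T hf)
  obtain ⟨n, B, hB, hcov⟩ := T.exists_bound hf
  have hM' : ∀ σ, ‖f σ‖ ≤ |M| := fun σ => (hM σ).trans (le_abs_self M)
  refine ⟨n * |M|, by positivity, ?_, ?_⟩
  · intro u α F
    refine sum_le_of_cover _ |M| (abs_nonneg M) (fun b => hM' _)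
      (fun l => {β : 𝒢.Fib u | 𝒢.dv α.1 β.1 ∈ B l}) ?_ ?_ F
    · intro l β hβ γ hγ
      have h1 : 𝒢.s α.1 = 𝒢.s β.1 := by rw [α.2, β.2]
      have h2 : 𝒢.s α.1 = 𝒢.s γ.1 := by rw [α.2, γ.2]
      have h3 := (hB l).injOn_r hβ hγ (by rw [𝒢.r_dv h1, 𝒢.r_dv h2])
      exact Subtype.ext (𝒢.dv_injective_right h1 h2 h3)
    · intro β hβ
      obtain ⟨l, hl⟩ := hcov _ hβ
      rw [T.q_dv_lift] at hl
      exact ⟨l, hl⟩
  · intro u β F
    refine sum_le_of_cover (fun α => T.mat f α β) |M| (abs_nonneg M) (fun b => hM' _)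
      (fun l => {α : 𝒢.Fib u | 𝒢.dv α.1 β.1 ∈ B l}) ?_ ?_ F
    · intro l α hα γ hγ
      have h1 : 𝒢.s α.1 = 𝒢.s β.1 := by rw [α.2, β.2]
      have h2 : 𝒢.s γ.1 = 𝒢.s β.1 := by rw [γ.2, β.2]
      have h3 := (hB l).injOn_s hα hγ (by rw [𝒢.s_dv h1, 𝒢.s_dv h2])
      exact Subtype.ext (𝒢.dv_injective_left h1 h2 h3)
    · intro α hα
      obtain ⟨l, hl⟩ := hcov _ hα
      rw [T.q_dv_lift] at hl
      exact ⟨l, hl⟩

theorem mat_conv {f g : S → ℂ} (hf : f ∈ T.Cc) (hg : g ∈ T.Cc) {u : X} (α γ : 𝒢.Fib u) :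
    T.mat (T.conv f g) α γ = ∑ᶠ β : 𝒢.Fib u, T.mat f α β * T.mat g β γ := by
  have hs : 𝒢.s α.1 = 𝒢.s γ.1 := by rw [α.2, γ.2]
  have hr : T.grpd.r (T.grpd.dv (T.lift α.1) (T.lift γ.1)) = 𝒢.r α.1 := by
    rw [T.grpd.r_dv (T.s_lift_eq α γ), r_lift]
  rw [mat, conv, ← finsum_mem_univ (fun β : 𝒢.Fib u => T.mat f α β * T.mat g β γ)]
  symm
  refine finsum_mem_eq_of_bijOn (fun β : 𝒢.Fib u => 𝒢.dv α.1 β.1) ⟨?_, ?_, ?_⟩ ?_
  · intro β _
    show 𝒢.r (𝒢.dv α.1 β.1) = _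
    rw [hr, 𝒢.r_dv (by rw [α.2, β.2])]
  · intro β _ γ' _ h
    exact Subtype.ext (𝒢.dv_injective_right (by rw [α.2, β.2]) (by rw [α.2, γ'.2]) h)
  · intro δ hδ
    have hδ' : 𝒢.r δ = 𝒢.r α.1 := by
      have : 𝒢.r δ = T.grpd.r (T.grpd.dv (T.lift α.1) (T.lift γ.1)) := hδ
      rw [this, hr]
    have h1 : 𝒢.s (𝒢.inv δ) = 𝒢.r α.1 := by rw [𝒢.s_inv, hδ']
    refine ⟨⟨𝒢.mul (𝒢.inv δ) α.1, by rw [𝒢.s_mul _ _ h1, α.2]⟩, mem_univ _, ?_⟩
    show 𝒢.dv α.1 (𝒢.mul (𝒢.inv δ) α.1) = δ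
    rw [TopGroupoid.dv, 𝒢.inv_mul_rev h1, 𝒢.inv_inv, 𝒢.mul_inv_cancel_left hδ'.symm]
  · intro β _
    have hsab : 𝒢.s α.1 = 𝒢.s β.1 := by rw [α.2, β.2]
    have h1 : T.grpd.r (T.grpd.dv (T.lift α.1) (T.lift β.1)) =
        T.grpd.r (T.grpd.dv (T.lift α.1) (T.lift γ.1)) := by
      rw [hr, T.grpd.r_dv (T.s_lift_eq α β), r_lift]
    rw [← T.term_eq hf hg (σ := T.grpd.dv (T.lift α.1) (T.lift γ.1)) h1
      (τ' := T.lift (𝒢.dv α.1 β.1)) (by rw [T.q_dv_lift, q_lift])]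
    rw [T.grpd.inv_dv (T.s_lift_eq α β),
      T.grpd.dv_mul_dv (T.s_lift_eq β α) (T.s_lift_eq α γ)]
    rfl

theorem mat_invol {f : S → ℂ} {u : X} (α γ : 𝒢.Fib u) :
    T.mat (T.invol f) α γ = (starRingEnd ℂ) (T.mat f γ α) := by
  rw [mat, invol, T.grpd.inv_dv (T.s_lift_eq α γ), mat]

theorem exists_reg (f : T.Cc) (u : X) :
    ∃ A : L2 (𝒢.Fib u) →L[ℂ] L2 (𝒢.Fib u), ∀ ξ a, (A ξ) a = ∑ᶠ b, T.mat f a b * ξ b := by
  obtain ⟨C, hC, hrow, hcol⟩ := T.mat_bound f.2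
  exact exists_matrixOp (T.mat f) C hC (T.mat_row_finite f.2) (hrow u) (hcol u)

/-- The operator of the regular representation at `u`. -/
noncomputable def regOp (f : T.Cc) (u : X) : L2 (𝒢.Fib u) →L[ℂ] L2 (𝒢.Fib u) :=
  (T.exists_reg f u).choose

theorem regOp_apply (f : T.Cc) (u : X) (ξ : L2 (𝒢.Fib u)) (a : 𝒢.Fib u) :
    (T.regOp f u ξ) a = ∑ᶠ b, T.mat f a b * ξ b := (T.exists_reg f u).choose_spec ξ a

theorem regOp_dl (f : T.Cc) (u : X) (a b : 𝒢.Fib u) :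
    (T.regOp f u (dl b)) a = T.mat f a b := by
  classical
  rw [regOp_apply, finsum_eq_single _ b]
  · rw [dl_apply]; simp
  · intro c hc
    rw [dl_apply]; simp [hc]

theorem regOp_ext {f : T.Cc} {u : X} {A : L2 (𝒢.Fib u) →L[ℂ] L2 (𝒢.Fib u)}
    (h : ∀ a b, (A (dl b)) a = T.mat f a b) : T.regOp f u = A := by
  refine ext_dl fun b => ?_
  ext a
  rw [regOp_dl, h]

theorem regOp_add (f g : T.Cc) (u : X) : T.regOp (f + g) u = T.regOp f u + T.regOp g u :=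
  T.regOp_ext fun a b => by
    show (T.regOp f u (dl b)) a + (T.regOp g u (dl b)) a = _
    rw [regOp_dl, regOp_dl]; rfl

theorem regOp_smul (c : ℂ) (f : T.Cc) (u : X) : T.regOp (c • f) u = c • T.regOp f u :=
  T.regOp_ext fun a b => by
    show c • (T.regOp f u (dl b)) a = _
    rw [regOp_dl]; rfl

theorem regOp_star (f g : T.Cc) (h : (g : S → ℂ) = T.invol f) (u : X) :
    T.regOp g u = star (T.regOp f u) :=
  T.regOp_ext fun a b => by
    rw [ContinuousLinearMap.star_eq_adjoint, ← inner_dl, ContinuousLinearMap.adjoint_inner_right,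
      ← inner_conj_symm, inner_dl, regOp_dl, h, mat_invol]

theorem regOp_mul (f g k : T.Cc) (h : (k : S → ℂ) = T.conv f g) (u : X) :
    T.regOp k u = T.regOp f u * T.regOp g u :=
  T.regOp_ext fun a b => by
    show (T.regOp f u (T.regOp g u (dl b))) a = _
    rw [regOp_apply, h, mat_conv _ f.2 g.2]
    exact finsum_congr fun c => by rw [regOp_dl]

/-- The regular representations separate the points of `C_c(G, Σ)`. -/
theorem regOp_injective {f g : T.Cc} (h : ∀ u, T.regOp f u = T.regOp g u) : f = g := by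
  apply Subtype.ext
  ext σ
  set u := T.grpd.s σ with hu
  let α : 𝒢.Fib u := ⟨T.q σ, by rw [T.s_q]⟩
  let β : 𝒢.Fib u := ⟨𝒢.one u, 𝒢.s_one u⟩
  have h1 : T.mat f α β = T.mat g α β := by
    rw [← regOp_dl, ← regOp_dl, h]
  have h2 : T.q (T.grpd.dv (T.lift α.1) (T.lift β.1)) = T.q σ := by
    rw [T.q_dv_lift]
    show 𝒢.mul (T.q σ) (𝒢.inv (𝒢.one u)) = T.q σ
    rw [𝒢.inv_one, hu, ← T.s_q, 𝒢.mul_one]
  obtain ⟨z, hz⟩ := T.exists_act_eq h2
  rw [← hz, Cc.equiv T f.2, Cc.equiv T g.2]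
  exact congrArg _ h1

section Algebra

set_option linter.unusedSectionVars false

variable [T2Space S] [T2Space G] [LocallyCompactSpace G]

noncomputable instance : Mul T.Cc := ⟨fun f g => ⟨T.conv f g, T.conv_mem f.2 g.2⟩⟩

noncomputable instance : Star T.Cc := ⟨fun f => ⟨T.invol f, T.invol_mem f.2⟩⟩

theorem coe_mul (f g : T.Cc) : ((f * g : T.Cc) : S → ℂ) = T.conv f g := rfl

theorem coe_star (f : T.Cc) : ((star f : T.Cc) : S → ℂ) = T.invol f := rfl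

theorem regOp_mul' (f g : T.Cc) (u : X) : T.regOp (f * g) u = T.regOp f u * T.regOp g u :=
  T.regOp_mul f g _ rfl u

theorem regOp_star' (f : T.Cc) (u : X) : T.regOp (star f) u = star (T.regOp f u) :=
  T.regOp_star f _ rfl u

theorem regOp_zero (u : X) : T.regOp 0 u = 0 := by
  have := T.regOp_smul 0 0 u
  simpa using this

noncomputable instance : NonUnitalRing T.Cc :=
  { (inferInstance : AddCommGroup T.Cc) with
    mul := (· * ·)
    left_distrib := fun f g k => T.regOp_injective fun u => by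
      simp only [regOp_mul', regOp_add, mul_add]
    right_distrib := fun f g k => T.regOp_injective fun u => by
      simp only [regOp_mul', regOp_add, add_mul]
    zero_mul := fun f => T.regOp_injective fun u => by
      simp only [regOp_mul', regOp_zero, zero_mul]
    mul_zero := fun f => T.regOp_injective fun u => by
      simp only [regOp_mul', regOp_zero, mul_zero]
    mul_assoc := fun f g k => T.regOp_injective fun u => by
      simp only [regOp_mul', mul_assoc] }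

noncomputable instance : StarRing T.Cc where
  star_involutive := fun f => T.regOp_injective fun u => by
    simp only [regOp_star', star_star]
  star_mul := fun f g => T.regOp_injective fun u => by
    simp only [regOp_star', regOp_mul', star_mul]
  star_add := fun f g => T.regOp_injective fun u => by
    simp only [regOp_star', regOp_add, star_add]

instance : IsScalarTower ℂ T.Cc T.Cc where
  smul_assoc := fun c f g => T.regOp_injective fun u => by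
    simp only [smul_eq_mul, regOp_mul', regOp_smul, smul_mul_assoc]

instance : SMulCommClass ℂ T.Cc T.Cc where
  smul_comm := fun c f g => T.regOp_injective fun u => by
    simp only [smul_eq_mul, regOp_mul', regOp_smul, mul_smul_comm]

instance : StarModule ℂ T.Cc where
  star_smul := fun c f => T.regOp_injective fun u => by
    simp only [regOp_star', regOp_smul, star_smul]

/-- The regular representation of `C_c(G, Σ)` on `ℓ²(G_u)`. -/
noncomputable def regRep (u : X) : T.Cc →⋆ₙₐ[ℂ] (L2 (𝒢.Fib u) →L[ℂ] L2 (𝒢.Fib u)) where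
  toFun f := T.regOp f u
  map_smul' c f := T.regOp_smul c f u
  map_zero' := T.regOp_zero u
  map_add' f g := T.regOp_add f g u
  map_mul' f g := T.regOp_mul' f g u
  map_star' f := T.regOp_star' f u

end Algebra

end Twist

end Pool.Agent.TwGrpd
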