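import Pool.Agent.TwGrpd.Defs

set_option autoImplicit false

open Topology Set

set_option linter.unusedSectionVars false

namespace Pool.Agent.TwGrpd

namespace EtaleGroupoid

variable {X G : Type*} [TopologicalSpace X] [TopologicalSpace G] (𝒢 : EtaleGroupoid X G)

/-- Open bisections. -/
structure IsBisection (B : Set G) : Prop where
  isOpen : IsOpen B
  injOn_r : InjOn 𝒢.r B
  injOn_s : InjOn 𝒢.s B

theorem exists_bisection (α : G) : ∃ B, 𝒢.IsBisection B ∧ α ∈ B := by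
  obtain ⟨U, hU, hα, hUi⟩ := 𝒢.isLocalHomeomorph_r.isLocallyInjective α
  obtain ⟨V, hV, hα', hVi⟩ := 𝒢.isLocalHomeomorph_s.isLocallyInjective α
  exact ⟨U ∩ V, ⟨hU.inter hV, hUi.mono inter_subset_left, hVi.mono inter_subset_right⟩, hα, hα'⟩

theorem exists_cover {K : Set G} (hK : IsCompact K) :
    ∃ (n : ℕ) (B : Fin n → Set G), (∀ l, 𝒢.IsBisection (B l)) ∧ K ⊆ ⋃ l, B l := by
  classical
  choose B hB hαB using 𝒢.exists_bisection
  obtain ⟨t, -, ht⟩ := hK.elim_nhds_subcover B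
    (fun α _ => (hB α).isOpen.mem_nhds (hαB α))
  refine ⟨t.card, fun l => B ((t.equivFin.symm l : t) : G), fun l => hB _, ?_⟩
  intro x hx
  obtain ⟨a, ha, hxa⟩ := mem_iUnion₂.1 (ht hx)
  refine mem_iUnion.2 ⟨t.equivFin ⟨a, ha⟩, ?_⟩
  simpa using hxa

end EtaleGroupoid

namespace Twist

variable {X G S : Type*} [TopologicalSpace X] [TopologicalSpace G] [TopologicalSpace S]
  {𝒢 : EtaleGroupoid X G} (T : Twist 𝒢 S)

/-- `C_c(G, Σ)`: continuous compactly supported functions `f` on the twist with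
`f (z • σ) = conj z * f σ`. -/
def Cc : Submodule ℂ (S → ℂ) where
  carrier := {f | Continuous f ∧ HasCompactSupport f ∧
    ∀ (z : Circle) (σ : S), f (T.act z σ) = (starRingEnd ℂ) (z : ℂ) * f σ}
  zero_mem' := ⟨continuous_zero, HasCompactSupport.zero, by simp⟩
  add_mem' := by
    rintro f g ⟨h1, h2, h3⟩ ⟨k1, k2, k3⟩
    exact ⟨h1.add k1, h2.add k2, fun z σ => by simp [h3, k3, mul_add]⟩
  smul_mem' := by
    rintro c f ⟨h1, h2, h3⟩
    refine ⟨h1.const_smul c, h2.smul_left (f := fun _ => c), fun z σ => ?_⟩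
    simp only [Pi.smul_apply, smul_eq_mul, h3]
    ring

theorem Cc.continuous {f : S → ℂ} (hf : f ∈ T.Cc) : Continuous f := hf.1
theorem Cc.compact {f : S → ℂ} (hf : f ∈ T.Cc) : HasCompactSupport f := hf.2.1
theorem Cc.equiv {f : S → ℂ} (hf : f ∈ T.Cc) (z : Circle) (σ : S) :
    f (T.act z σ) = (starRingEnd ℂ) (z : ℂ) * f σ := hf.2.2 z σ

/-- The convolution product
`(f * g)(σ) = ∑_{α ∈ G, r α = r σ} f(τ_α) g(τ_α⁻¹ σ)`, where `τ_α` is any element of the twist
over `α` (the choice does not matter for elements of `C_c(G, Σ)`). -/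
noncomputable def conv (f g : S → ℂ) (σ : S) : ℂ :=
  ∑ᶠ α ∈ {α : G | 𝒢.r α = T.grpd.r σ},
    f (T.lift α) * g (T.grpd.mul (T.grpd.inv (T.lift α)) σ)

/-- The involution `f^*(σ) = conj (f (σ⁻¹))`. -/
noncomputable def invol (f : S → ℂ) (σ : S) : ℂ := (starRingEnd ℂ) (f (T.grpd.inv σ))

theorem circle_mul_conj (z : Circle) : (z : ℂ) * (starRingEnd ℂ) (z : ℂ) = 1 := by
  rw [Complex.mul_conj, Circle.normSq_coe]; simp

theorem circle_inv (z : Circle) : ((z⁻¹ : Circle) : ℂ) = (starRingEnd ℂ) (z : ℂ) := by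
  rw [Circle.coe_inv_eq_conj]

theorem norm_equiv {f : S → ℂ} (hf : f ∈ T.Cc) {σ τ : S} (h : T.q σ = T.q τ) :
    ‖f σ‖ = ‖f τ‖ := by
  obtain ⟨z, rfl⟩ := T.exists_act_eq h
  rw [Cc.equiv T hf, norm_mul, RCLike.norm_conj, Circle.norm_coe, one_mul]

theorem ne_zero_iff_of_q_eq {f : S → ℂ} (hf : f ∈ T.Cc) {σ τ : S} (h : T.q σ = T.q τ) :
    f σ ≠ 0 ↔ f τ ≠ 0 := by
  rw [← norm_ne_zero_iff, T.norm_equiv hf h, norm_ne_zero_iff]

/-- The summand of the convolution does not depend on the chosen lift. -/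
theorem term_eq {f g : S → ℂ} (hf : f ∈ T.Cc) (hg : g ∈ T.Cc) {σ τ τ' : S}
    (hr : T.grpd.r τ = T.grpd.r σ) (h : T.q τ = T.q τ') :
    f τ * g (T.grpd.mul (T.grpd.inv τ) σ) = f τ' * g (T.grpd.mul (T.grpd.inv τ') σ) := by
  obtain ⟨z, rfl⟩ := T.exists_act_eq h
  rw [T.inv_act, T.act_mul _ (by rw [T.grpd.s_inv, hr]), Cc.equiv T hf, Cc.equiv T hg,
    circle_inv, Complex.conj_conj]
  have := circle_mul_conj z
  linear_combination (-(f τ) * g (T.grpd.mul (T.grpd.inv τ) σ)) * this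

/-- Bound on the number of points of the support of `f` in a fibre of the range map, for a
function supported over finitely many bisections. -/
theorem exists_bound {f : S → ℂ} (hf : f ∈ T.Cc) :
    ∃ (n : ℕ) (B : Fin n → Set G), (∀ l, 𝒢.IsBisection (B l)) ∧
      ∀ σ, f σ ≠ 0 → ∃ l, T.q σ ∈ B l := by
  obtain ⟨n, B, hB, hK⟩ := 𝒢.exists_cover ((Cc.compact T hf).isCompact.image T.continuous_q)
  refine ⟨n, B, hB, fun σ hσ => ?_⟩
  exact mem_iUnion.1 (hK ⟨σ, subset_tsupport _ hσ, rfl⟩)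

theorem finite_fiber_r {f : S → ℂ} (hf : f ∈ T.Cc) (x : X) :
    {α : G | 𝒢.r α = x ∧ f (T.lift α) ≠ 0}.Finite := by
  obtain ⟨n, B, hB, h⟩ := T.exists_bound hf
  refine Set.Finite.subset (Set.finite_iUnion (f := fun l : Fin n => {α : G | 𝒢.r α = x ∧ α ∈ B l})
    fun l => ?_) ?_
  · refine Set.Subsingleton.finite fun a ha b hb => (hB l).injOn_r ha.2 hb.2 ?_
    rw [ha.1, hb.1]
  · rintro α ⟨h1, h2⟩
    obtain ⟨l, hl⟩ := h _ h2
    rw [q_lift] at hl
    exact mem_iUnion.2 ⟨l, h1, hl⟩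

theorem conv_add_left {f f' g : S → ℂ} (hf : f ∈ T.Cc) (hf' : f' ∈ T.Cc) :
    T.conv (f + f') g = T.conv f g + T.conv f' g := by
  ext σ
  simp only [conv, Pi.add_apply]
  rw [← finsum_mem_add_distrib']
  · refine finsum_mem_congr rfl fun α _ => by ring
  · refine (T.finite_fiber_r hf (T.grpd.r σ)).subset ?_
    rintro α ⟨h1, h2⟩
    refine ⟨h1, fun h => h2 ?_⟩
    simp [h]
  · refine (T.finite_fiber_r hf' (T.grpd.r σ)).subset ?_
    rintro α ⟨h1, h2⟩
    refine ⟨h1, fun h => h2 ?_⟩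
    simp [h]

theorem conv_smul_left {f g : S → ℂ} (c : ℂ) :
    T.conv (c • f) g = c • T.conv f g := by
  ext σ
  simp only [conv, Pi.smul_apply, smul_eq_mul]
  by_cases hc : c = 0
  · simp [hc]
  have : ∀ α : G, (∑ᶠ (_ : α ∈ {α : G | 𝒢.r α = T.grpd.r σ}),
      c * f (T.lift α) * g (T.grpd.mul (T.grpd.inv (T.lift α)) σ))
      = c * ∑ᶠ (_ : α ∈ {α : G | 𝒢.r α = T.grpd.r σ}),
        f (T.lift α) * g (T.grpd.mul (T.grpd.inv (T.lift α)) σ) := by
    intro α
    by_cases h : α ∈ {α : G | 𝒢.r α = T.grpd.r σ}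
    · simp only [h, finsum_true]; ring
    · simp [h]
  simp_rw [this]
  have h2 := (smul_finsum (c : ℂ) (fun α : G => ∑ᶠ (_ : α ∈ {α : G | 𝒢.r α = T.grpd.r σ}),
        f (T.lift α) * g (T.grpd.mul (T.grpd.inv (T.lift α)) σ))).symm
  simpa only [smul_eq_mul] using h2

theorem conv_eq_zero {f g : S → ℂ} {σ : S}
    (h : ∀ α, 𝒢.r α = T.grpd.r σ → f (T.lift α) = 0) : T.conv f g σ = 0 := by
  rw [conv]
  refine finsum_mem_eq_zero_of_forall_eq_zero fun α hα => ?_
  rw [h α hα, zero_mul]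

theorem conv_eq_of_unique {f g : S → ℂ} (hf : f ∈ T.Cc) (hg : g ∈ T.Cc) {σ τ : S}
    (hr : T.grpd.r τ = T.grpd.r σ)
    (h : ∀ α, 𝒢.r α = T.grpd.r σ → f (T.lift α) ≠ 0 → α = T.q τ) :
    T.conv f g σ = f τ * g (T.grpd.mul (T.grpd.inv τ) σ) := by
  rw [conv, finsum_mem_def, finsum_eq_single _ (T.q τ)]
  · rw [Set.indicator_of_mem]
    · exact T.term_eq hf hg (by rw [r_lift, T.r_q, hr]) (by rw [q_lift])
    · simp only [Set.mem_ofPred_eq, T.r_q, hr]
  · intro α hα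
    by_cases h1 : 𝒢.r α = T.grpd.r σ
    · rw [Set.indicator_of_mem (by exact h1)]
      by_cases h2 : f (T.lift α) = 0
      · rw [h2, zero_mul]
      · exact absurd (h α h1 h2) hα
    · rw [Set.indicator_of_notMem (by exact h1)]

theorem conv_eq_of_bisection {f g : S → ℂ} (hf : f ∈ T.Cc) (hg : g ∈ T.Cc) {B : Set G}
    (hB : 𝒢.IsBisection B) (hfB : ∀ σ, f σ ≠ 0 → T.q σ ∈ B) {σ τ : S}
    (hr : T.grpd.r τ = T.grpd.r σ) (hτ : T.q τ ∈ B) :
    T.conv f g σ = f τ * g (T.grpd.mul (T.grpd.inv τ) σ) := by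
  refine T.conv_eq_of_unique hf hg hr fun α h1 h2 => ?_
  have := hfB _ h2
  rw [q_lift] at this
  exact hB.injOn_r this hτ (by rw [h1, T.r_q, hr])

theorem conv_equivariant {f g : S → ℂ} (hg : g ∈ T.Cc) (z : Circle) (σ : S) :
    T.conv f g (T.act z σ) = (starRingEnd ℂ) (z : ℂ) * T.conv f g σ := by
  have h2 := (smul_finsum ((starRingEnd ℂ) (z : ℂ)) (fun α : G =>
    ∑ᶠ (_ : α ∈ {α : G | 𝒢.r α = T.grpd.r σ}),
        f (T.lift α) * g (T.grpd.mul (T.grpd.inv (T.lift α)) σ)))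
  simp only [smul_eq_mul] at h2
  rw [conv, conv, h2]
  refine finsum_congr fun α => ?_
  rw [r_act]
  by_cases h : α ∈ {α : G | 𝒢.r α = T.grpd.r σ}
  · simp only [h, finsum_true]
    rw [T.mul_act _ (by rw [T.grpd.s_inv, r_lift]; exact h), Cc.equiv T hg]
    ring
  · simp [h]

theorem conv_ne_zero {f g : S → ℂ} {σ : S} (h : T.conv f g σ ≠ 0) :
    ∃ a b : S, f a ≠ 0 ∧ g b ≠ 0 ∧ T.grpd.s a = T.grpd.r b ∧ σ = T.grpd.mul a b := by
  by_contra hcon
  push Not at hcon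
  apply h
  rw [conv]
  refine finsum_mem_eq_zero_of_forall_eq_zero fun α hα => ?_
  have hα' : 𝒢.r α = T.grpd.r σ := hα
  by_contra h1
  have h2 := left_ne_zero_of_mul h1
  have h3 := right_ne_zero_of_mul h1
  have h4 : T.grpd.s (T.grpd.inv (T.lift α)) = T.grpd.r σ := by rw [T.grpd.s_inv, r_lift, hα']
  refine hcon _ _ h2 h3 ?_ ?_
  · rw [T.grpd.r_mul _ _ h4, T.grpd.r_inv]
  · rw [T.grpd.mul_inv_cancel_left (by rw [r_lift, hα'])]

variable [T2Space X]

theorem isCompact_mulSet {K L : Set S} (hK : IsCompact K) (hL : IsCompact L) :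
    IsCompact ((fun p : S × S => T.grpd.mul p.1 p.2) ''
      ((K ×ˢ L) ∩ {p | T.grpd.s p.1 = T.grpd.r p.2})) := by
  have h1 : IsClosed {p : S × S | T.grpd.s p.1 = T.grpd.r p.2} :=
    isClosed_eq (T.grpd.continuous_s.comp continuous_fst) (T.grpd.continuous_r.comp continuous_snd)
  exact ((hK.prod hL).inter_right h1).image_of_continuousOn
    (T.grpd.continuous_mul.mono inter_subset_right)

variable [T2Space S]

theorem conv_compact {f g : S → ℂ} (hf : f ∈ T.Cc) (hg : g ∈ T.Cc) :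
    HasCompactSupport (T.conv f g) := by
  refine HasCompactSupport.intro (T.isCompact_mulSet (Cc.compact T hf).isCompact
    (Cc.compact T hg).isCompact) fun σ hσ => ?_
  by_contra h
  obtain ⟨a, b, ha, hb, hab, rfl⟩ := T.conv_ne_zero h
  exact hσ ⟨(a, b), ⟨⟨subset_tsupport _ ha, subset_tsupport _ hb⟩, hab⟩, rfl⟩

/-- Continuity of the convolution product when the first factor is supported over a bisection. -/
theorem conv_continuous_of_bisection {f g : S → ℂ} (hf : f ∈ T.Cc) (hg : g ∈ T.Cc) {B : Set G}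
    (hB : 𝒢.IsBisection B) (hfB : ∀ σ ∈ tsupport f, T.q σ ∈ B) : Continuous (T.conv f g) := by
  rw [continuous_iff_continuousAt]
  intro σ₀
  by_cases hx : T.grpd.r σ₀ ∈ T.grpd.r '' tsupport f
  · obtain ⟨τ₀, hτ₀, hr₀⟩ := hx
    have hb₀ : T.q τ₀ ∈ B := hfB _ hτ₀
    obtain ⟨e, he, hre⟩ := 𝒢.isLocalHomeomorph_r (T.q τ₀)
    obtain ⟨P, hP, hPq⟩ := T.exists_local_section (T.q τ₀)
    have hr₁ : 𝒢.r (T.q τ₀) = T.grpd.r σ₀ := by rw [T.r_q, hr₀]
    have hre' : ∀ a, e a = 𝒢.r a := fun a => by rw [hre]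
    have htarget : T.grpd.r σ₀ ∈ e.target := by
      rw [← hr₁, ← hre']; exact e.map_source he
    have hsymm : e.symm (T.grpd.r σ₀) = T.q τ₀ := by
      rw [← hr₁, ← hre', e.left_inv he]
    -- the local lift of the element of `B` with the same range
    let L : S → S := fun σ => P (e.symm (T.grpd.r σ))
    have hcont1 : ContinuousAt (fun σ => e.symm (T.grpd.r σ)) σ₀ :=
      ContinuousAt.comp (e.continuousAt_symm htarget) T.grpd.continuous_r.continuousAt
    have hL : ContinuousAt L σ₀ := by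
      refine ContinuousAt.comp (g := P) ?_ hcont1
      rw [hsymm]; exact hP
    have hev : ∀ᶠ σ in 𝓝 σ₀, T.q (L σ) ∈ B ∧ T.grpd.r (L σ) = T.grpd.r σ := by
      have h1 : ∀ᶠ σ in 𝓝 σ₀, T.q (P (e.symm (T.grpd.r σ))) = e.symm (T.grpd.r σ) := by
        refine hcont1.eventually (p := fun β => T.q (P β) = β) ?_
        show ∀ᶠ β in 𝓝 (e.symm (T.grpd.r σ₀)), T.q (P β) = β
        rw [hsymm]; exact hPq
      have h2 : ∀ᶠ σ in 𝓝 σ₀, e.symm (T.grpd.r σ) ∈ B := by
        refine hcont1.eventually_mem ?_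
        rw [hsymm]; exact hB.isOpen.mem_nhds hb₀
      have h3 : ∀ᶠ σ in 𝓝 σ₀, T.grpd.r σ ∈ e.target :=
        T.grpd.continuous_r.continuousAt.eventually_mem (e.open_target.mem_nhds htarget)
      filter_upwards [h1, h2, h3] with σ h1 h2 h3
      refine ⟨?_, ?_⟩
      · show T.q (P (e.symm (T.grpd.r σ))) ∈ B
        rw [h1]; exact h2
      · show T.grpd.r (P (e.symm (T.grpd.r σ))) = _
        rw [← T.r_q, h1, ← hre', e.right_inv h3]
    have hfB' : ∀ σ, f σ ≠ 0 → T.q σ ∈ B := fun σ hσ => hfB σ (subset_tsupport _ hσ)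
    have hEq : T.conv f g =ᶠ[𝓝 σ₀]
        fun σ => f (L σ) * g (T.grpd.mul (T.grpd.inv (L σ)) σ) := by
      filter_upwards [hev] with σ hσ
      exact T.conv_eq_of_bisection hf hg hB hfB' hσ.2 hσ.1
    refine ContinuousAt.congr ?_ hEq.symm
    refine ContinuousAt.mul ((Cc.continuous T hf).continuousAt.comp hL) ?_
    refine (Cc.continuous T hg).continuousAt.comp ?_
    have h5 : ContinuousAt (fun σ => (T.grpd.inv (L σ), σ)) σ₀ :=
      (T.grpd.continuous_inv.continuousAt.comp hL).prodMk continuousAt_id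
    have h6 : ∀ᶠ σ in 𝓝 σ₀, (T.grpd.inv (L σ), σ) ∈ {p : S × S | T.grpd.s p.1 = T.grpd.r p.2} := by
      filter_upwards [hev] with σ hσ
      show T.grpd.s (T.grpd.inv (L σ)) = T.grpd.r σ
      rw [T.grpd.s_inv, hσ.2]
    have h7 : ContinuousWithinAt (fun p : S × S => T.grpd.mul p.1 p.2)
        {p | T.grpd.s p.1 = T.grpd.r p.2} (T.grpd.inv (L σ₀), σ₀) :=
      T.grpd.continuous_mul _ h6.self_of_nhds
    exact h7.tendsto.comp (tendsto_nhdsWithin_iff.2 ⟨h5, h6⟩)
  · -- the convolution vanishes near `σ₀`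
    have hcl : IsClosed (T.grpd.r '' tsupport f) :=
      ((Cc.compact T hf).isCompact.image T.grpd.continuous_r).isClosed
    have hev : ∀ᶠ σ in 𝓝 σ₀, T.grpd.r σ ∉ T.grpd.r '' tsupport f :=
      T.grpd.continuous_r.continuousAt.eventually_mem (hcl.isOpen_compl.mem_nhds hx)
    have hEq : T.conv f g =ᶠ[𝓝 σ₀] fun _ => 0 := by
      filter_upwards [hev] with σ hσ
      refine T.conv_eq_zero fun α hα => ?_
      by_contra hne
      exact hσ ⟨T.lift α, subset_tsupport _ hne, by rw [r_lift, hα]⟩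
    exact continuousAt_const.congr hEq.symm

variable [T2Space G] [LocallyCompactSpace G]

omit [T2Space X] [T2Space S] in
/-- Every element of `C_c(G, Σ)` is a finite sum of elements supported over open bisections. -/
theorem exists_decomp {f : S → ℂ} (hf : f ∈ T.Cc) :
    ∃ (n : ℕ) (B : Fin n → Set G) (F : Fin n → T.Cc), (∀ l, 𝒢.IsBisection (B l)) ∧
      (∀ l, ∀ σ ∈ tsupport (F l : S → ℂ), T.q σ ∈ B l) ∧ ∑ l, (F l : S → ℂ) = f := by
  have hKc := (Cc.compact T hf).isCompact.image T.continuous_q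
  obtain ⟨n, B, hB, hK⟩ := 𝒢.exists_cover hKc
  obtain ⟨φ, hφ1, hφ2, hφ3, -⟩ := exists_continuous_sum_one_of_isOpen_isCompact
    (fun l => (hB l).isOpen) hKc hK
  have hmem : ∀ l, (fun σ => ((φ l (T.q σ) : ℝ) : ℂ) * f σ) ∈ T.Cc := by
    intro l
    refine ⟨?_, ?_, ?_⟩
    · exact (Complex.continuous_ofReal.comp ((φ l).continuous.comp T.continuous_q)).mul
        (Cc.continuous T hf)
    · exact (Cc.compact T hf).mul_left
    · intro z σ
      show ((φ l (T.q (T.act z σ)) : ℝ) : ℂ) * f (T.act z σ) =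
        (starRingEnd ℂ) (z : ℂ) * (((φ l (T.q σ) : ℝ) : ℂ) * f σ)
      rw [q_act, Cc.equiv T hf]
      ring
  refine ⟨n, B, fun l => ⟨_, hmem l⟩, hB, ?_, ?_⟩
  · intro l σ hσ
    apply hφ1 l
    have h1 : tsupport (fun σ => ((φ l (T.q σ) : ℝ) : ℂ) * f σ) ⊆ T.q ⁻¹' tsupport (φ l) := by
      apply closure_minimal
      · intro τ hτ
        apply subset_tsupport
        intro h0
        apply hτ
        simp [h0]
      · exact (isClosed_tsupport _).preimage T.continuous_q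
    exact h1 hσ
  · ext σ
    rw [Finset.sum_apply]
    by_cases h0 : f σ = 0
    · simp [h0]
    · have h1 : T.q σ ∈ T.q '' tsupport f := ⟨σ, subset_tsupport _ h0, rfl⟩
      have h2 := hφ2 h1
      simp only [Finset.sum_apply, Pi.one_apply] at h2
      rw [← Finset.sum_mul, ← Complex.ofReal_sum]
      rw [h2]; simp

omit [T2Space X] [T2Space S] [T2Space G] [LocallyCompactSpace G] in
/-- Convolution by a fixed element on the right, as a linear map. -/
noncomputable def convLin (g : S → ℂ) : T.Cc →ₗ[ℂ] (S → ℂ) where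
  toFun f := T.conv f g
  map_add' f f' := T.conv_add_left f.2 f'.2
  map_smul' c _ := T.conv_smul_left c

theorem conv_mem_aux {f g : S → ℂ} (hf : f ∈ T.Cc) (hg : g ∈ T.Cc) : T.conv f g ∈ T.Cc := by
  refine ⟨?_, T.conv_compact hf hg, fun z σ => T.conv_equivariant hg z σ⟩
  obtain ⟨n, B, F, hB, hF, hsum⟩ := T.exists_decomp hf
  have h1 : T.conv f g = ∑ l, T.conv (F l) g := by
    have h2 := map_sum (T.convLin g) F Finset.univ
    have h3 : (∑ l, F l : T.Cc) = ⟨f, hf⟩ := by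
      apply Subtype.ext
      rw [Submodule.coe_sum]
      exact hsum
    rw [h3] at h2
    exact h2
  rw [h1]
  have h4 := continuous_finsetSum Finset.univ
    fun l _ => T.conv_continuous_of_bisection (F l).2 hg (hB l) (hF l)
  convert h4 using 1
  ext σ
  rw [Finset.sum_apply]

omit [T2Space X] in
theorem conv_mem {f g : S → ℂ} (hf : f ∈ T.Cc) (hg : g ∈ T.Cc) : T.conv f g ∈ T.Cc := by
  haveI := 𝒢.t2Space_units
  exact T.conv_mem_aux hf hg

omit [T2Space X] [T2Space S] [T2Space G] [LocallyCompactSpace G] in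
theorem invol_mem {f : S → ℂ} (hf : f ∈ T.Cc) : T.invol f ∈ T.Cc := by
  refine ⟨?_, ?_, ?_⟩
  · exact Complex.continuous_conj.comp ((Cc.continuous T hf).comp T.grpd.continuous_inv)
  · have h1 : HasCompactSupport (f ∘ T.grpd.invHomeo) :=
      (Cc.compact T hf).comp_homeomorph T.grpd.invHomeo
    exact h1.comp_left (g := (starRingEnd ℂ)) (map_zero _)
  · intro z σ
    simp only [invol]
    rw [T.inv_act, Cc.equiv T hf, map_mul, circle_inv, Complex.conj_conj]

end Twist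

end Pool.Agent.TwGrpd
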